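import Pool.Agent.Q286.BD.Spec
import Pool.Agent.Q260.LF.PF

set_option autoImplicit false

/-!
# Project BD: the constants (job C1)
-/

namespace Pool.Agent.Q210.BD

open Complex MeasureTheory Filter Topology Set
open Pool.Agent.Q286.BD
open Pool.Agent.Y23 (Zt mu ZZ XX_diff XX_an zsummable Lg one_le_Lg IsZ isZ_iff isZ_finite mu_pos)
open Pool.Agent.Q260.LF (hk pf)
open Pool.Agent.H24R2.JP (XX)

lemma zline (h : RiemannHypothesis) {s : ℂ} (hs : IsZ s) : s.re = 1 / 2 := by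
  refine h s hs.1 ?_ ?_
  · rintro ⟨n, hn⟩
    have h1 := hs.2.1
    rw [hn] at h1
    simp at h1
    have : (0 : ℝ) ≤ n := Nat.cast_nonneg n
    linarith
  · intro h1
    have h2 := hs.2.2
    rw [h1] at h2
    simp at h2

/-- the kernel on a ball -/
lemma hk_bd {z ζ : ℂ} {δ R : ℝ} (hδ : 0 < δ) (hR : 0 ≤ R) (hz : δ ≤ z.re) (hzR : ‖z‖ ≤ R) (hζ : ζ.re = 0) :
    ‖hk z ζ‖ ≤ R * (1 + (1 + R) / δ) ^ 2 * (1 / (1 + (ζ.im - 0) ^ 2)) := by
  set K : ℝ := 1 + (1 + R) / δ with hK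
  have hK1 : 1 ≤ K := by
    have : 0 ≤ (1 + R) / δ := by positivity
    linarith
  have key : ∀ w : ℂ, δ ≤ ‖w‖ → |ζ.im| ≤ ‖w‖ + R → 1 + |ζ.im| ≤ K * ‖w‖ := by
    intro w h1 h2
    have h3 : 1 + R ≤ (1 + R) / δ * ‖w‖ := by
      rw [div_mul_eq_mul_div, le_div_iff₀ hδ]
      exact mul_le_mul_of_nonneg_left h1 (by linarith)
    rw [hK, add_mul, one_mul]
    linarith
  have a1 : 1 + |ζ.im| ≤ K * ‖z - ζ‖ := by
    refine key _ ?_ ?_
    · have h1 : (z - ζ).re = z.re := by rw [Complex.sub_re, hζ, sub_zero]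
      exact (hz.trans (by rw [h1])).trans (Complex.re_le_norm _)
    · calc |ζ.im| ≤ ‖ζ‖ := Complex.abs_im_le_norm ζ
        _ = ‖z - (z - ζ)‖ := by congr 1; ring
        _ ≤ ‖z‖ + ‖z - ζ‖ := norm_sub_le _ _
        _ ≤ _ := by linarith
  have a2 : 1 + |ζ.im| ≤ K * ‖z + ζ‖ := by
    refine key _ ?_ ?_
    · have h1 : (z + ζ).re = z.re := by rw [Complex.add_re, hζ, add_zero]
      exact (hz.trans (by rw [h1])).trans (Complex.re_le_norm _)
    · calc |ζ.im| ≤ ‖ζ‖ := Complex.abs_im_le_norm ζ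
        _ = ‖(z + ζ) - z‖ := by congr 1; ring
        _ ≤ ‖z + ζ‖ + ‖z‖ := norm_sub_le _ _
        _ ≤ _ := by linarith
  have a3 : 1 + ζ.im ^ 2 ≤ K ^ 2 * ‖z ^ 2 - ζ ^ 2‖ := by
    have e : z ^ 2 - ζ ^ 2 = (z - ζ) * (z + ζ) := by ring
    have h1 : 1 + ζ.im ^ 2 ≤ (1 + |ζ.im|) * (1 + |ζ.im|) := by
      nlinarith [abs_nonneg ζ.im, sq_abs ζ.im]
    refine h1.trans ?_
    rw [e, norm_mul]
    calc (1 + |ζ.im|) * (1 + |ζ.im|) ≤ (K * ‖z - ζ‖) * (K * ‖z + ζ‖) :=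
          mul_le_mul a1 a2 (by positivity) (by positivity)
      _ = _ := by ring
  have hpos : 0 < ‖z ^ 2 - ζ ^ 2‖ := by
    by_contra hc
    have : ‖z ^ 2 - ζ ^ 2‖ = 0 := le_antisymm (not_lt.1 hc) (norm_nonneg _)
    rw [this, mul_zero] at a3
    nlinarith [sq_nonneg ζ.im]
  unfold hk
  rw [norm_div, sub_zero, mul_one_div, div_le_div_iff₀ hpos (by positivity)]
  calc ‖z‖ * (1 + ζ.im ^ 2) ≤ R * (K ^ 2 * ‖z ^ 2 - ζ ^ 2‖) := mul_le_mul hzR a3 (by positivity) hR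
    _ = _ := by ring

lemma hk_ne0 {z ζ : ℂ} (hz : 0 < z.re) (hζ : ζ.re = 0) : z ^ 2 - ζ ^ 2 ≠ 0 := by
  refine Pool.Agent.Q260.LF.hk_ne ?_
  rw [hζ, abs_zero]
  exact hz

lemma FF_diff (h : RiemannHypothesis) :
    DifferentiableOn ℂ (fun z : ℂ => ∑' ρ : Zt, (mu ρ : ℂ) * hk z ((ρ : ℂ) - 1 / 2)) {z : ℂ | 0 < z.re} := by
  intro z0 hz0
  have hz0' : 0 < z0.re := hz0
  refine DifferentiableAt.differentiableWithinAt ?_
  set δ : ℝ := z0.re / 2 with hδ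
  have hδ0 : 0 < δ := half_pos hz0'
  set R : ℝ := ‖z0‖ + δ with hR
  have hre : ∀ ρ : Zt, ((ρ : ℂ) - 1 / 2).re = 0 := by
    intro ρ
    have := zline h ρ.2
    rw [Complex.sub_re, this]
    norm_num
  have hb1 : ∀ z ∈ Metric.ball z0 δ, δ ≤ z.re := by
    intro z hz
    rw [Metric.mem_ball, dist_eq_norm] at hz
    have h1 : |(z - z0).re| ≤ ‖z - z0‖ := Complex.abs_re_le_norm _
    rw [Complex.sub_re] at h1
    have h2 := neg_abs_le (z.re - z0.re)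
    linarith
  have hb2 : ∀ z ∈ Metric.ball z0 δ, ‖z‖ ≤ R := by
    intro z hz
    rw [Metric.mem_ball, dist_eq_norm] at hz
    have : ‖z‖ ≤ ‖z - z0‖ + ‖z0‖ := by
      calc ‖z‖ = ‖(z - z0) + z0‖ := by congr 1; ring
        _ ≤ _ := norm_add_le _ _
    linarith
  have hsum := (zsummable 0).mul_left (R * (1 + (1 + R) / δ) ^ 2)
  have := differentiableOn_tsum_of_summable_norm (F := fun (ρ : Zt) (z : ℂ) => (mu ρ : ℂ) * hk z ((ρ : ℂ) - 1 / 2))
    hsum (U := Metric.ball z0 δ) (by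
      intro ρ z hz
      refine DifferentiableAt.differentiableWithinAt ?_
      unfold hk
      have h1 := hk_ne0 (lt_of_lt_of_le hδ0 (hb1 z hz)) (hre ρ)
      refine DifferentiableAt.const_mul ?_ _
      exact differentiableAt_id.div (by fun_prop) h1) Metric.isOpen_ball (by
      intro ρ z hz
      rw [norm_mul, Complex.norm_natCast]
      have h1 := hk_bd hδ0 (by positivity) (hb1 z hz) (hb2 z hz) (hre ρ)
      have h2 : ((ρ : ℂ) - 1 / 2).im = (ρ : ℂ).im := by simp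
      rw [h2] at h1
      calc (mu ρ : ℝ) * ‖hk z ((ρ : ℂ) - 1 / 2)‖ ≤
            (mu ρ : ℝ) * (R * (1 + (1 + R) / δ) ^ 2 * (1 / (1 + ((ρ : ℂ).im - 0) ^ 2))) :=
            mul_le_mul_of_nonneg_left h1 (Nat.cast_nonneg _)
        _ = _ := by ring)
  exact this.differentiableAt (Metric.ball_mem_nhds _ hδ0)

lemma XX_ne (h : RiemannHypothesis) {z : ℂ} (hz : 0 < z.re) : XX z ≠ 0 := by
  intro h0
  have h1 : IsZ (z + 1 / 2) := by
    rw [isZ_iff]
    rw [add_sub_cancel_right]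
    exact h0
  have h2 := zline h h1
  rw [Complex.add_re] at h2
  norm_num at h2
  linarith

lemma ZZ_diff0 (h : RiemannHypothesis) : DifferentiableOn ℂ ZZ {z : ℂ | 0 < z.re} := by
  have hU : IsOpen {z : ℂ | 0 < z.re} := isOpen_lt continuous_const continuous_re
  unfold ZZ
  exact ((XX_diff.differentiableOn).deriv hU).div XX_diff.differentiableOn fun z hz => XX_ne h hz

/-- partial fractions to the right of the line -/
lemma pf0 (h : RiemannHypothesis) {z : ℂ} (hz : 0 < z.re) :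
    ZZ z = ∑' ρ : Zt, (mu ρ : ℂ) * hk z ((ρ : ℂ) - 1 / 2) := by
  have hU : IsOpen {z : ℂ | 0 < z.re} := isOpen_lt continuous_const continuous_re
  have hc : IsPreconnected {z : ℂ | 0 < z.re} := (convex_halfSpace_re_gt 0).isPreconnected
  have h1 := (ZZ_diff0 h).analyticOnNhd hU
  have h2 := (FF_diff h).analyticOnNhd hU
  have h3 : ZZ =ᶠ[𝓝 (2 : ℂ)] (fun z : ℂ => ∑' ρ : Zt, (mu ρ : ℂ) * hk z ((ρ : ℂ) - 1 / 2)) := by
    have hV : IsOpen {z : ℂ | 1 < z.re} := isOpen_lt continuous_const continuous_re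
    have : (2 : ℂ) ∈ {z : ℂ | 1 < z.re} := by
      rw [mem_ofPred_eq]
      norm_num
    filter_upwards [hV.mem_nhds this] with z hz
    exact pf hz
  exact h1.eqOn_of_preconnected_of_eventuallyEq h2 hc (by norm_num : (2 : ℂ) ∈ {z : ℂ | 0 < z.re}) h3 hz

lemma ZZ_half : ZZ (1 / 2) = completedRiemannZeta₀ 1 := by
  have h1 : HasDerivAt XX (4 * completedRiemannZeta₀ 1) (1 / 2) := by
    have e : (1 / 2 + 1 / 2 : ℂ) = 1 := by norm_num
    have h2 : HasDerivAt (fun z : ℂ => completedRiemannZeta₀ (1 / 2 + z)) (deriv completedRiemannZeta₀ (1 / 2 + 1 / 2)) (1 / 2) := by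
      have h3 := (differentiable_completedZeta₀ (1 / 2 + 1 / 2)).hasDerivAt
      exact h3.comp_const_add (1 / 2) (1 / 2)
    have h3 : HasDerivAt (fun z : ℂ => 4 * z ^ 2 - 1) (4 * (2 * (1 / 2))) (1 / 2) := by
      have := (((hasDerivAt_id (1 / 2 : ℂ)).pow 2).const_mul 4).sub_const 1
      refine this.congr_deriv ?_
      norm_num
    have h4 := (h3.mul h2).add_const 4
    have h5 : HasDerivAt XX (4 * (2 * (1 / 2)) * completedRiemannZeta₀ (1 / 2 + 1 / 2) +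
        (4 * (1 / 2) ^ 2 - 1) * deriv completedRiemannZeta₀ (1 / 2 + 1 / 2)) (1 / 2) := h4
    refine h5.congr_deriv ?_
    rw [e]
    ring
  unfold ZZ
  rw [h1.deriv, Pool.Agent.H24R2.JP.Zer.XX_half]
  ring

/-- **C1 (a)** -/
theorem const : S_const := by
  intro h
  have h1 := pf0 h (z := 1 / 2) (by norm_num)
  rw [ZZ_half, completedRiemannZeta₀_one] at h1
  have h2 : ∀ ρ : Zt, (mu ρ : ℂ) * hk (1 / 2) ((ρ : ℂ) - 1 / 2) =
      ((1 / 2 * ((mz ρ : ℝ) / ‖(ρ : ℂ)‖ ^ 2) : ℝ) : ℂ) := by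
    intro ρ
    have hr := zline h ρ.2
    have e1 : (ρ : ℂ) - 1 / 2 = ((ρ : ℂ).im : ℂ) * I := by
      apply Complex.ext
      · simp [hr]
      · simp
    have e2 : ‖(ρ : ℂ)‖ ^ 2 = 1 / 4 + (ρ : ℂ).im ^ 2 := by
      rw [← Complex.normSq_eq_norm_sq, Complex.normSq_apply, hr]
      ring
    have e3 : (1 / 2 : ℂ) ^ 2 - (((ρ : ℂ).im : ℂ) * I) ^ 2 = ((1 / 4 + (ρ : ℂ).im ^ 2 : ℝ) : ℂ) := by
      rw [mul_pow, I_sq]
      push_cast
      ring
    unfold hk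
    rw [e1, e3, e2]
    have : mz (ρ : ℂ) = mu (ρ : ℂ) := rfl
    rw [this]
    push_cast
    ring
  rw [tsum_congr h2, ← Complex.ofReal_tsum, tsum_mul_left] at h1
  have h3 := congrArg Complex.re h1
  rw [Complex.ofReal_re] at h3
  have h4 : ((((Real.eulerMascheroniConstant : ℝ) : ℂ) - Complex.log (4 * (Real.pi : ℂ))) / 2 + 1).re =
      (Real.eulerMascheroniConstant - Real.log (4 * Real.pi)) / 2 + 1 := by
    have h5 : Complex.log (4 * (Real.pi : ℂ)) = ((Real.log (4 * Real.pi) : ℝ) : ℂ) := by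
      rw [Complex.ofReal_log (by positivity)]
      push_cast
      rfl
    rw [h5, ← Complex.ofReal_sub]
    have h6 : (((Real.eulerMascheroniConstant - Real.log (4 * Real.pi) : ℝ) : ℂ) / 2 + 1) =
        (((Real.eulerMascheroniConstant - Real.log (4 * Real.pi)) / 2 + 1 : ℝ) : ℂ) := by
      push_cast
      ring
    rw [h6, Complex.ofReal_re]
  rw [h4] at h3
  linarith

lemma Lg_le4 : ∃ C : ℝ, 0 < C ∧ ∀ t : ℝ, Lg t ^ 2 ≤ C * (1 + |t|) ^ (1 / 2 : ℝ) := by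
  refine ⟨32, by norm_num, fun t => ?_⟩
  have h0 : 0 ≤ |t| := abs_nonneg _
  have h1 : Lg t ≤ (3 + |t|) ^ (1 / 4 : ℝ) / (1 / 4) := by
    unfold Lg
    exact Real.log_le_rpow_div (by positivity) (by norm_num)
  have hL := one_le_Lg t
  have h2 : Lg t ^ 2 ≤ ((3 + |t|) ^ (1 / 4 : ℝ) / (1 / 4)) ^ 2 := pow_le_pow_left₀ (by linarith) h1 2
  have h3 : ((3 + |t|) ^ (1 / 4 : ℝ) / (1 / 4)) ^ 2 = 16 * (3 + |t|) ^ (1 / 2 : ℝ) := by
    rw [div_pow, ← Real.rpow_natCast, ← Real.rpow_mul (by positivity)]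
    norm_num
    ring
  have h4 : (3 + |t|) ^ (1 / 2 : ℝ) ≤ 2 * (1 + |t|) ^ (1 / 2 : ℝ) := by
    calc (3 + |t|) ^ (1 / 2 : ℝ) ≤ (4 * (1 + |t|)) ^ (1 / 2 : ℝ) :=
          Real.rpow_le_rpow (by positivity) (by linarith) (by norm_num)
      _ = 2 * (1 + |t|) ^ (1 / 2 : ℝ) := by
          rw [Real.mul_rpow (by norm_num) (by positivity)]
          congr 1
          rw [show (4 : ℝ) = 2 ^ (2 : ℝ) by norm_num, ← Real.rpow_mul (by norm_num)]
          norm_num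
  rw [h3] at h2
  linarith

lemma summable_j2 : Summable (fun j : ℤ => Lg j ^ 2 / (1 + (j : ℝ) ^ 2)) := by
  obtain ⟨C, hC, hL⟩ := Lg_le4
  have h1 : Summable (fun j : ℤ => |(j : ℝ)| ^ (-(3 / 2 : ℝ))) :=
    Real.summable_abs_int_rpow (by norm_num)
  have h2 : Summable (fun j : ℤ => (2 * C) * |(j : ℝ)| ^ (-(3 / 2 : ℝ)) + if j = 0 then Lg 0 ^ 2 else 0) := by
    refine (h1.mul_left (2 * C)).add ?_
    exact summable_of_ne_finset_zero (s := {0}) fun b hb => by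
      rw [Finset.mem_singleton] at hb
      rw [if_neg hb]
  refine Summable.of_nonneg_of_le (fun j => ?_) (fun j => ?_) h2
  · positivity
  · by_cases hj : j = 0
    · subst hj
      simp only [Int.cast_zero, if_true]
      have h3 : 0 ≤ (2 * C) * |(0 : ℝ)| ^ (-(3 / 2 : ℝ)) := by positivity
      simp only [ne_eq, OfNat.ofNat_ne_zero, not_false_eq_true, zero_pow, add_zero, div_one]
      linarith
    · rw [if_neg hj, add_zero]
      have hj1 : (1 : ℝ) ≤ |(j : ℝ)| := by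
        have := Int.one_le_abs hj
        exact_mod_cast this
      have hj0 : 0 < |(j : ℝ)| := by linarith
      have h3 := hL j
      have h4 : (1 + |(j : ℝ)|) ^ (1 / 2 : ℝ) ≤ 2 * |(j : ℝ)| ^ (1 / 2 : ℝ) := by
        calc (1 + |(j : ℝ)|) ^ (1 / 2 : ℝ) ≤ (4 * |(j : ℝ)|) ^ (1 / 2 : ℝ) :=
              Real.rpow_le_rpow (by positivity) (by linarith) (by norm_num)
          _ = _ := by
              rw [Real.mul_rpow (by norm_num) (by positivity)]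
              congr 1
              rw [show (4 : ℝ) = 2 ^ (2 : ℝ) by norm_num, ← Real.rpow_mul (by norm_num)]
              norm_num
      rw [div_le_iff₀ (by positivity)]
      have h5 : |(j : ℝ)| ^ (-(3 / 2 : ℝ)) * (j : ℝ) ^ 2 = |(j : ℝ)| ^ (1 / 2 : ℝ) := by
        rw [← sq_abs, ← Real.rpow_natCast, ← Real.rpow_add hj0]
        norm_num
      have h6 : 0 ≤ |(j : ℝ)| ^ (-(3 / 2 : ℝ)) := by positivity
      calc Lg j ^ 2 ≤ C * (2 * |(j : ℝ)| ^ (1 / 2 : ℝ)) := h3.trans (mul_le_mul_of_nonneg_left h4 hC.le)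
        _ = 2 * C * (|(j : ℝ)| ^ (-(3 / 2 : ℝ)) * (j : ℝ) ^ 2) := by rw [h5]; ring
        _ ≤ 2 * C * |(j : ℝ)| ^ (-(3 / 2 : ℝ)) * (1 + (j : ℝ) ^ 2) := by nlinarith [mul_nonneg hC.le h6]

/-- the squares of the multiplicities -/
lemma sq_summable : Summable (fun ρ : Zt => (mu ρ : ℝ) ^ 2 * (1 / (1 + (ρ : ℂ).im ^ 2))) := by
  classical
  obtain ⟨C, hC, hcnt⟩ := Pool.Agent.Y23.cnt
  have hA := summable_j2
  refine summable_of_sum_le (c := 4 * C ^ 2 * ∑' j : ℤ, Lg j ^ 2 / (1 + (j : ℝ) ^ 2)) (fun ρ => by positivity) fun S => ?_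
  have h1 : ∑ ρ ∈ S, (mu ρ : ℝ) ^ 2 * (1 / (1 + (ρ : ℂ).im ^ 2)) =
      ∑ k ∈ S.image (fun ρ : Zt => ⌊(ρ : ℂ).im⌋), ∑ ρ ∈ S.filter (fun ρ : Zt => ⌊(ρ : ℂ).im⌋ = k),
        (mu ρ : ℝ) ^ 2 * (1 / (1 + (ρ : ℂ).im ^ 2)) :=
    (Finset.sum_fiberwise_of_maps_to (fun s hs => Finset.mem_image_of_mem _ hs) _).symm
  rw [h1]
  have h2 : ∀ k ∈ S.image (fun ρ : Zt => ⌊(ρ : ℂ).im⌋), ∑ ρ ∈ S.filter (fun ρ : Zt => ⌊(ρ : ℂ).im⌋ = k),
        (mu ρ : ℝ) ^ 2 * (1 / (1 + (ρ : ℂ).im ^ 2)) ≤ 4 * C ^ 2 * (Lg k ^ 2 / (1 + (k : ℝ) ^ 2)) := by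
    intro k _
    set F := S.filter (fun ρ : Zt => ⌊(ρ : ℂ).im⌋ = k) with hF
    have hloc : ∀ ρ ∈ F, (k : ℝ) ≤ (ρ : ℂ).im ∧ (ρ : ℂ).im < k + 1 := by
      intro ρ hρ
      rw [hF, Finset.mem_filter] at hρ
      have h4 := Int.floor_le (ρ : ℂ).im
      have h5 := Int.lt_floor_add_one (ρ : ℂ).im
      rw [hρ.2] at h4 h5
      exact ⟨h4, h5⟩
    have h3 := hcnt k (F.map (Function.Embedding.subtype _)) (by
      intro s hs
      rw [Finset.mem_map] at hs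
      obtain ⟨u, hu, rfl⟩ := hs
      refine ⟨u.2, ?_⟩
      have := hloc u hu
      rw [abs_le]
      simp only [Function.Embedding.subtype_apply]
      constructor <;> linarith [this.1, this.2])
    rw [Finset.sum_map] at h3
    simp only [Function.Embedding.subtype_apply] at h3
    have h3' : ∑ ρ ∈ F, (mu ρ : ℝ) ≤ C * Lg k := by
      have := h3
      push_cast at this
      exact this
    have h4 : ∑ ρ ∈ F, (mu ρ : ℝ) ^ 2 ≤ (∑ ρ ∈ F, (mu ρ : ℝ)) ^ 2 :=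
      Finset.sum_sq_le_sq_sum_of_nonneg fun ρ _ => Nat.cast_nonneg _
    have h5 : (∑ ρ ∈ F, (mu ρ : ℝ)) ^ 2 ≤ (C * Lg k) ^ 2 :=
      pow_le_pow_left₀ (Finset.sum_nonneg fun ρ _ => Nat.cast_nonneg _) h3' 2
    calc ∑ ρ ∈ F, (mu ρ : ℝ) ^ 2 * (1 / (1 + (ρ : ℂ).im ^ 2))
        ≤ ∑ ρ ∈ F, (mu ρ : ℝ) ^ 2 * (4 / (1 + (k : ℝ) ^ 2)) := by
          refine Finset.sum_le_sum fun ρ hρ => mul_le_mul_of_nonneg_left ?_ (by positivity)
          have h6 := hloc ρ hρ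
          rw [div_le_div_iff₀ (by positivity) (by positivity)]
          have h7 : ((k : ℝ) - (ρ : ℂ).im) ^ 2 ≤ 1 := by nlinarith [h6.1, h6.2]
          nlinarith [sq_nonneg (2 * (ρ : ℂ).im - k), sq_nonneg ((ρ : ℂ).im)]
      _ = (∑ ρ ∈ F, (mu ρ : ℝ) ^ 2) * (4 / (1 + (k : ℝ) ^ 2)) := by rw [Finset.sum_mul]
      _ ≤ (C * Lg k) ^ 2 * (4 / (1 + (k : ℝ) ^ 2)) :=
          mul_le_mul_of_nonneg_right (h4.trans h5) (by positivity)
      _ = _ := by ring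
  refine (Finset.sum_le_sum h2).trans ?_
  rw [← Finset.mul_sum]
  refine mul_le_mul_of_nonneg_left ?_ (by positivity)
  exact hA.sum_le_tsum _ fun j _ => by positivity

/-- **C1 (b)** -/
theorem sum2 : S_sum2 := by
  have h1 := sq_summable.mul_left 2
  refine Summable.of_norm_bounded_eventually h1 ?_
  have hfin : Set.Finite {ρ : Zt | |(ρ : ℂ).im| ≤ 1} := by
    have := isZ_finite 1
    refine Set.Finite.of_finite_image (f := fun ρ : Zt => (ρ : ℂ)) (this.subset ?_) Subtype.val_injective.injOn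
    rintro _ ⟨ρ, hρ, rfl⟩
    exact ⟨ρ.2, hρ⟩
  rw [Filter.eventually_cofinite]
  refine hfin.subset ?_
  intro ρ hρ
  rw [mem_ofPred_eq] at hρ ⊢
  by_contra hc
  rw [not_le] at hc
  apply hρ
  have h2 : 1 ≤ (ρ : ℂ).im ^ 2 := by
    rw [← sq_abs]
    nlinarith
  have h3 : (ρ : ℂ).im ^ 2 ≤ ‖(ρ : ℂ)‖ ^ 2 := by
    rw [← sq_abs]
    exact pow_le_pow_left₀ (abs_nonneg _) (Complex.abs_im_le_norm _) 2
  have h4 : (0 : ℝ) < ‖(ρ : ℂ)‖ ^ 2 := by linarith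
  rw [Real.norm_of_nonneg (by positivity)]
  have e : mz (ρ : ℂ) = mu (ρ : ℂ) := rfl
  rw [e, div_eq_mul_one_div, mul_left_comm]
  refine mul_le_mul_of_nonneg_left ?_ (by positivity)
  rw [mul_one_div, div_le_div_iff₀ h4 (by positivity)]
  linarith

lemma cl_re (g : ℝ) : (cl g).re = 1 / 2 := by
  unfold cl
  simp

lemma cl_im (g : ℝ) : (cl g).im = g := by
  unfold cl
  simp

lemma cl_inj : Function.Injective cl := by
  intro a b h
  have := congrArg Complex.im h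
  rwa [cl_im, cl_im] at this

/-- **C1 (c)** -/
theorem cnt : S_cnt := by
  classical
  obtain ⟨C, hC, hcnt⟩ := Pool.Agent.Y23.cnt
  refine ⟨2 * C, fun T => ?_⟩
  have hfin : ({g : ℝ | riemannZeta (cl g) = 0} ∩ Icc T (T + 1)).Finite := by
    have := isZ_finite (|T| + 1)
    refine Set.Finite.of_finite_image (f := cl) (this.subset ?_) cl_inj.injOn
    rintro _ ⟨g, ⟨h1, h2⟩, rfl⟩
    refine ⟨⟨h1, by rw [cl_re]; norm_num, by rw [cl_re]; norm_num⟩, ?_⟩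
    rw [cl_im, abs_le]
    have h3 := neg_abs_le T
    have h4 := le_abs_self T
    constructor <;> linarith [h2.1, h2.2]
  refine ⟨hfin, ?_⟩
  rw [Set.ncard_eq_toFinset_card _ hfin]
  have h1 := hcnt T (hfin.toFinset.image cl) (by
    intro s hs
    rw [Finset.mem_image] at hs
    obtain ⟨g, hg, rfl⟩ := hs
    rw [Set.Finite.mem_toFinset] at hg
    refine ⟨⟨hg.1, by rw [cl_re]; norm_num, by rw [cl_re]; norm_num⟩, ?_⟩
    rw [cl_im, abs_le]
    constructor <;> linarith [hg.2.1, hg.2.2])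
  rw [Finset.sum_image (fun x _ y _ hxy => cl_inj hxy)] at h1
  have h2 : (hfin.toFinset.card : ℝ) ≤ ((∑ g ∈ hfin.toFinset, mu (cl g) : ℕ) : ℝ) := by
    have : hfin.toFinset.card ≤ ∑ g ∈ hfin.toFinset, mu (cl g) := by
      rw [Finset.card_eq_sum_ones]
      refine Finset.sum_le_sum fun g hg => ?_
      rw [Set.Finite.mem_toFinset] at hg
      exact mu_pos ⟨hg.1, by rw [cl_re]; norm_num, by rw [cl_re]; norm_num⟩
    exact_mod_cast this
  refine h2.trans (h1.trans ?_)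
  have h3 : Lg T ≤ 2 * Real.log (|T| + 2) := by
    unfold Lg
    have h4 : 2 * Real.log (|T| + 2) = Real.log ((|T| + 2) ^ 2) := by
      rw [Real.log_pow]
      norm_num
    rw [h4]
    have h5 := abs_nonneg T
    exact Real.log_le_log (by positivity) (by nlinarith)
  nlinarith

end Pool.Agent.Q210.BD
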