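import Pool.Agent.Q286.BD.Spec2

set_option autoImplicit false

/-!
# Project BD: the norm of a combination of main parts (job R4)
-/

namespace Pool.Agent.Q210.BD

open Complex MeasureTheory Filter Topology Set
open Pool.Agent.Q286.BD
open scoped ComplexConjugate

/-- the bound in the integration by parts -/
noncomputable def BB (q : Polynomial ℝ) : ℝ := |q.eval 0| + |q.eval 1| + ∫ u in (0 : ℝ)..1, |q.derivative.eval u|

lemma BB_nonneg (q : Polynomial ℝ) : 0 ≤ BB q := by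
  unfold BB
  have : 0 ≤ ∫ u in (0 : ℝ)..1, |q.derivative.eval u| :=
    intervalIntegral.integral_nonneg zero_le_one fun u _ => abs_nonneg _
  positivity

lemma osc (q : Polynomial ℝ) {τ : ℝ} (hτ : τ ≠ 0) :
    ‖∫ u in (0 : ℝ)..1, cexp (-(τ * u * I)) * ((q.eval u : ℝ) : ℂ)‖ ≤ BB q / |τ| := by
  have hc : (-(τ * I) : ℂ) ≠ 0 := neg_ne_zero.2 (mul_ne_zero (by exact_mod_cast hτ) I_ne_zero)
  have hu : ∀ x ∈ uIcc (0 : ℝ) 1, HasDerivAt (fun u : ℝ => ((q.eval u : ℝ) : ℂ)) ((q.derivative.eval x : ℝ) : ℂ) x :=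
    fun x _ => (q.hasDerivAt x).ofReal_comp
  have hv : ∀ x ∈ uIcc (0 : ℝ) 1, HasDerivAt (fun u : ℝ => cexp (-(τ * u * I)) / (-(τ * I))) (cexp (-(τ * x * I))) x := by
    intro x _
    have h1 : HasDerivAt (fun u : ℝ => (-(τ * u * I) : ℂ)) (-(τ * I)) x := by
      have h2 : HasDerivAt (fun u : ℝ => ((u : ℝ) : ℂ)) 1 x := Complex.ofRealCLM.hasDerivAt
      have h3 := h2.const_mul (-(τ * I) : ℂ)
      rw [mul_one] at h3
      refine h3.congr_of_eventuallyEq (Filter.Eventually.of_forall fun u => ?_)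
      ring
    have h2 := (h1.cexp).div_const (-(τ * I))
    rwa [mul_div_cancel_right₀ _ hc] at h2
  have hi1 : IntervalIntegrable (fun x : ℝ => ((q.derivative.eval x : ℝ) : ℂ)) volume 0 1 :=
    (Complex.continuous_ofReal.comp q.derivative.continuous).intervalIntegrable _ _
  have hi2 : IntervalIntegrable (fun x : ℝ => cexp (-(τ * x * I))) volume 0 1 :=
    (by fun_prop : Continuous fun x : ℝ => cexp (-(τ * x * I))).intervalIntegrable _ _
  have h := intervalIntegral.integral_mul_deriv_eq_deriv_mul hu hv hi1 hi2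
  have e : ∫ u in (0 : ℝ)..1, cexp (-(τ * u * I)) * ((q.eval u : ℝ) : ℂ) =
      ∫ u in (0 : ℝ)..1, ((q.eval u : ℝ) : ℂ) * cexp (-(τ * u * I)) := by
    refine intervalIntegral.integral_congr fun u _ => ?_
    exact mul_comm _ _
  rw [e, h]
  have hn : ∀ x : ℝ, ‖cexp (-(τ * x * I)) / (-(τ * I))‖ = 1 / |τ| := by
    intro x
    have e1 : (-((τ : ℂ) * x * I)) = ((-(τ * x) : ℝ) : ℂ) * I := by push_cast; ring
    rw [norm_div, e1, Complex.norm_exp_ofReal_mul_I, norm_neg, norm_mul, Complex.norm_I, mul_one, Complex.norm_real,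
      Real.norm_eq_abs]
  have h1 : ‖((q.eval 1 : ℝ) : ℂ) * (cexp (-(τ * (1 : ℝ) * I)) / (-(τ * I)))‖ = |q.eval 1| * (1 / |τ|) := by
    rw [norm_mul, hn, Complex.norm_real, Real.norm_eq_abs]
  have h0 : ‖((q.eval 0 : ℝ) : ℂ) * (cexp (-(τ * (0 : ℝ) * I)) / (-(τ * I)))‖ = |q.eval 0| * (1 / |τ|) := by
    rw [norm_mul, hn, Complex.norm_real, Real.norm_eq_abs]
  have h2 : ‖∫ x in (0 : ℝ)..1, ((q.derivative.eval x : ℝ) : ℂ) * (cexp (-(τ * x * I)) / (-(τ * I)))‖ ≤
      (∫ u in (0 : ℝ)..1, |q.derivative.eval u|) * (1 / |τ|) := by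
    rw [← intervalIntegral.integral_mul_const]
    refine intervalIntegral.norm_integral_le_of_norm_le zero_le_one (Filter.Eventually.of_forall fun x _ => ?_) ?_
    · rw [norm_mul, hn, Complex.norm_real, Real.norm_eq_abs]
    · exact (by fun_prop : Continuous fun x : ℝ => |q.derivative.eval x| * (1 / |τ|)).intervalIntegrable _ _
  calc _ ≤ ‖((q.eval 1 : ℝ) : ℂ) * (cexp (-(τ * (1 : ℝ) * I)) / (-(τ * I))) -
          ((q.eval 0 : ℝ) : ℂ) * (cexp (-(τ * (0 : ℝ) * I)) / (-(τ * I)))‖ + _ := norm_sub_le _ _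
    _ ≤ (|q.eval 1| * (1 / |τ|) + |q.eval 0| * (1 / |τ|)) + (∫ u in (0 : ℝ)..1, |q.derivative.eval u|) * (1 / |τ|) :=
        add_le_add ((norm_sub_le _ _).trans (by rw [h1, h0])) h2
    _ = BB q / |τ| := by unfold BB; ring

/-- the combination in the variable `y`, without the cutoff -/
noncomputable def GG (S : Finset ℝ) (p : ℝ → Polynomial ℝ) (w : ℝ → ℂ) (L y : ℝ) : ℝ :=
  ‖∑ g ∈ S, w g * ((y : ℂ) ^ (-cl g - 1) * (((p g).eval (Real.log y / L) : ℝ) : ℂ))‖ ^ 2 * y ^ 2

/-- the combination in the variable `u` -/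
noncomputable def UU (S : Finset ℝ) (p : ℝ → Polynomial ℝ) (w : ℝ → ℂ) (L u : ℝ) : ℂ :=
  ∑ g ∈ S, w g * (cexp (-(g * L * u * I)) * (((p g).eval u : ℝ) : ℂ))

lemma GG_cont (S : Finset ℝ) (p : ℝ → Polynomial ℝ) (w : ℝ → ℂ) (L : ℝ) : ContinuousOn (GG S p w L) (Ioi 0) := by
  unfold GG
  refine ContinuousOn.mul (ContinuousOn.pow (ContinuousOn.norm ?_) 2) (by fun_prop)
  refine continuousOn_finsetSum _ fun g _ => ?_
  refine continuousOn_const.mul (ContinuousOn.mul ?_ ?_)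
  · intro y hy
    refine ContinuousAt.continuousWithinAt ?_
    have h0 : ContinuousAt (fun y : ℝ => (y : ℂ)) y := Complex.continuous_ofReal.continuousAt
    exact h0.cpow continuousAt_const (Or.inl (by exact_mod_cast mem_Ioi.1 hy))
  · refine Complex.continuous_ofReal.comp_continuousOn ((p g).continuous.comp_continuousOn ?_)
    refine ContinuousOn.div_const ?_ _
    exact Real.continuousOn_log.mono fun y hy => (mem_Ioi.1 hy).ne'

lemma GG_exp (S : Finset ℝ) (p : ℝ → Polynomial ℝ) (w : ℝ → ℂ) {L : ℝ} (hL : 0 < L) (u : ℝ) :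
    GG S p w L (Real.exp (L * u)) * (L * Real.exp (L * u)) = L * ‖UU S p w L u‖ ^ 2 := by
  have h1 : ∀ g ∈ S, w g * (((Real.exp (L * u) : ℝ) : ℂ) ^ (-cl g - 1) *
      (((p g).eval (Real.log (Real.exp (L * u)) / L) : ℝ) : ℂ)) =
      ((Real.exp (-(3 / 2) * (L * u)) : ℝ) : ℂ) * (w g * (cexp (-(g * L * u * I)) * (((p g).eval u : ℝ) : ℂ))) := by
    intro g _
    have hne : ((Real.exp (L * u) : ℝ) : ℂ) ≠ 0 := by exact_mod_cast (Real.exp_pos _).ne'
    rw [Real.log_exp, mul_div_cancel_left₀ _ hL.ne', Complex.cpow_def_of_ne_zero hne,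
      ← Complex.ofReal_log (Real.exp_pos _).le, Real.log_exp]
    have e : ((L * u : ℝ) : ℂ) * (-cl g - 1) = ((-(3 / 2) * (L * u) : ℝ) : ℂ) + -(g * L * u * I) := by
      unfold cl
      push_cast
      ring
    rw [e, Complex.exp_add, Complex.ofReal_exp]
    ring
  unfold GG
  rw [Finset.sum_congr rfl h1, ← Finset.mul_sum, norm_mul, Complex.norm_real, Real.norm_of_nonneg (Real.exp_pos _).le]
  have e2 : Real.exp (-(3 / 2) * (L * u)) ^ 2 * (Real.exp (L * u) ^ 2 * Real.exp (L * u)) = 1 := by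
    rw [← Real.exp_nat_mul, ← Real.exp_nat_mul, ← Real.exp_add, ← Real.exp_add, Real.exp_eq_one_iff]
    push_cast
    ring
  have e3 : UU S p w L u = ∑ g ∈ S, w g * (cexp (-(g * L * u * I)) * (((p g).eval u : ℝ) : ℂ)) := rfl
  rw [← e3, mul_pow]
  linear_combination (L * ‖UU S p w L u‖ ^ 2) * e2

lemma UU_cont (S : Finset ℝ) (p : ℝ → Polynomial ℝ) (w : ℝ → ℂ) (L : ℝ) : Continuous (UU S p w L) := by
  unfold UU
  refine continuous_finsetSum _ fun g _ => ?_
  exact continuous_const.mul ((by fun_prop : Continuous fun u : ℝ => cexp (-(g * L * u * I))).mul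
    (Complex.continuous_ofReal.comp (p g).continuous))

/-- the change of variable -/
lemma change (S : Finset ℝ) (p : ℝ → Polynomial ℝ) (w : ℝ → ℂ) {L : ℝ} (hL : 0 < L) :
    ∫ y in (1 : ℝ)..Real.exp L, GG S p w L y = L * ∫ u in (0 : ℝ)..1, ‖UU S p w L u‖ ^ 2 := by
  have hd : ∀ x : ℝ, HasDerivAt (fun u : ℝ => Real.exp (L * u)) (L * Real.exp (L * x)) x := by
    intro x
    have h1 : HasDerivAt (fun u : ℝ => L * u) L x := by simpa using (hasDerivAt_id x).const_mul L
    have := h1.exp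
    rwa [mul_comm] at this
  have h := intervalIntegral.integral_comp_mul_deriv'' (a := 0) (b := 1) (f := fun u : ℝ => Real.exp (L * u))
    (f' := fun u : ℝ => L * Real.exp (L * u)) (g := GG S p w L) (by fun_prop)
    (fun x _ => (hd x).hasDerivWithinAt) (by fun_prop) ((GG_cont S p w L).mono (by
      rintro _ ⟨u, _, rfl⟩
      exact Real.exp_pos _))
  rw [mul_zero, Real.exp_zero, mul_one] at h
  rw [← h, ← intervalIntegral.integral_const_mul]
  refine intervalIntegral.integral_congr fun u _ => ?_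
  exact GG_exp S p w hL u

/-- the double sum -/
lemma expand (S : Finset ℝ) (p : ℝ → Polynomial ℝ) (w : ℝ → ℂ) (L : ℝ) :
    ((∫ u in (0 : ℝ)..1, ‖UU S p w L u‖ ^ 2 : ℝ) : ℂ) = ∑ g ∈ S, ∑ g' ∈ S, w g * conj (w g') *
      ∫ u in (0 : ℝ)..1, cexp (-(((g - g') * L : ℝ) * u * I)) * (((p g * p g').eval u : ℝ) : ℂ) := by
  rw [← intervalIntegral.integral_ofReal]
  have h1 : ∀ u : ℝ, ((‖UU S p w L u‖ ^ 2 : ℝ) : ℂ) = ∑ g ∈ S, ∑ g' ∈ S, w g * conj (w g') *
      (cexp (-(((g - g') * L : ℝ) * u * I)) * (((p g * p g').eval u : ℝ) : ℂ)) := by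
    intro u
    rw [← Complex.normSq_eq_norm_sq, ← Complex.mul_conj]
    unfold UU
    rw [map_sum, Finset.sum_mul_sum]
    refine Finset.sum_congr rfl fun g _ => Finset.sum_congr rfl fun g' _ => ?_
    rw [map_mul, map_mul, Complex.conj_ofReal, ← Complex.exp_conj, Polynomial.eval_mul]
    have e1 : conj (-((g' : ℂ) * L * u * I)) = g' * L * u * I := by
      simp
    have e2 : cexp (-(((g - g') * L : ℝ) * u * I)) = cexp (-(g * L * u * I)) * cexp (g' * L * u * I) := by
      rw [← Complex.exp_add]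
      congr 1
      push_cast
      ring
    rw [e1, e2]
    push_cast
    ring
  simp_rw [h1]
  have hi : ∀ g g' : ℝ, IntervalIntegrable (fun u : ℝ => w g * conj (w g') *
      (cexp (-(((g - g') * L : ℝ) * u * I)) * (((p g * p g').eval u : ℝ) : ℂ))) volume 0 1 := by
    intro g g'
    refine Continuous.intervalIntegrable ?_ _ _
    exact continuous_const.mul ((by fun_prop : Continuous fun u : ℝ => cexp (-(((g - g') * L : ℝ) * u * I))).mul
      (Complex.continuous_ofReal.comp (p g * p g').continuous))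
  rw [intervalIntegral.integral_finsetSum (fun g _ => by
    have := IntervalIntegrable.sum S (f := fun g' => fun u : ℝ => w g * conj (w g') *
      (cexp (-(((g - g') * L : ℝ) * u * I)) * (((p g * p g').eval u : ℝ) : ℂ))) (fun g' _ => hi g g')
    refine this.congr fun u _ => ?_
    simp)]
  refine Finset.sum_congr rfl fun g _ => ?_
  rw [intervalIntegral.integral_finsetSum (fun g' _ => hi g g')]
  refine Finset.sum_congr rfl fun g' _ => ?_
  rw [intervalIntegral.integral_const_mul]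

/-- the norm in the variable `u` -/
lemma norm_le (S : Finset ℝ) (p : ℝ → Polynomial ℝ) (w : ℝ → ℂ) {L : ℝ} (hL : 0 < L) :
    L * ∫ u in (0 : ℝ)..1, ‖UU S p w L u‖ ^ 2 ≤
      L * (∑ g ∈ S, ‖w g‖ ^ 2 * ∫ u in (0 : ℝ)..1, (p g).eval u ^ 2) +
        ∑ g ∈ S, ∑ g' ∈ S, ‖w g‖ * ‖w g'‖ * (BB (p g * p g') / |g - g'|) := by
  classical
  have h0 := expand S p w L
  have hre := congrArg Complex.re h0
  rw [Complex.ofReal_re, Complex.re_sum] at hre
  rw [hre, Finset.mul_sum, Finset.mul_sum, ← Finset.sum_add_distrib]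
  refine Finset.sum_le_sum fun g hg => ?_
  rw [Complex.re_sum, ← Finset.add_sum_erase S _ hg]
  have hdiag : (w g * conj (w g) * ∫ u in (0 : ℝ)..1, cexp (-(((g - g) * L : ℝ) * u * I)) *
      (((p g * p g).eval u : ℝ) : ℂ)).re = ‖w g‖ ^ 2 * ∫ u in (0 : ℝ)..1, (p g).eval u ^ 2 := by
    have h1 : ∫ u in (0 : ℝ)..1, cexp (-(((g - g) * L : ℝ) * u * I)) * (((p g * p g).eval u : ℝ) : ℂ) =
        ((∫ u in (0 : ℝ)..1, (p g).eval u ^ 2 : ℝ) : ℂ) := by
      rw [← intervalIntegral.integral_ofReal]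
      refine intervalIntegral.integral_congr fun u _ => ?_
      simp only [sub_self, zero_mul, Complex.ofReal_zero, neg_zero, Complex.exp_zero, one_mul, Polynomial.eval_mul]
      push_cast
      ring
    rw [h1, Complex.mul_conj, Complex.normSq_eq_norm_sq, ← Complex.ofReal_mul, Complex.ofReal_re]
  rw [hdiag, mul_add]
  have hsub : ∑ g' ∈ S.erase g, ‖w g‖ * ‖w g'‖ * (BB (p g * p g') / |g - g'|) ≤
      ∑ g' ∈ S, ‖w g‖ * ‖w g'‖ * (BB (p g * p g') / |g - g'|) := by
    refine Finset.sum_le_sum_of_subset_of_nonneg (Finset.erase_subset _ _) fun g' _ _ => ?_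
    have := BB_nonneg (p g * p g')
    positivity
  refine add_le_add le_rfl (le_trans ?_ hsub)
  rw [Finset.mul_sum]
  refine Finset.sum_le_sum fun g' hg' => ?_
  have hne : g - g' ≠ 0 := by
    intro h
    exact (Finset.ne_of_mem_erase hg') (by linarith)
  have hτ : (g - g') * L ≠ 0 := mul_ne_zero hne hL.ne'
  have h1 := osc (p g * p g') hτ
  calc L * (w g * conj (w g') * ∫ u in (0 : ℝ)..1, cexp (-(((g - g') * L : ℝ) * u * I)) *
        (((p g * p g').eval u : ℝ) : ℂ)).re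
      ≤ L * ‖w g * conj (w g') * ∫ u in (0 : ℝ)..1, cexp (-(((g - g') * L : ℝ) * u * I)) *
        (((p g * p g').eval u : ℝ) : ℂ)‖ := mul_le_mul_of_nonneg_left (Complex.re_le_norm _) hL.le
    _ = L * (‖w g‖ * ‖w g'‖ * ‖∫ u in (0 : ℝ)..1, cexp (-(((g - g') * L : ℝ) * u * I)) *
        (((p g * p g').eval u : ℝ) : ℂ)‖) := by rw [norm_mul, norm_mul, RCLike.norm_conj]
    _ ≤ L * (‖w g‖ * ‖w g'‖ * (BB (p g * p g') / |(g - g') * L|)) := by
        refine mul_le_mul_of_nonneg_left (mul_le_mul_of_nonneg_left h1 (by positivity)) hL.le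
    _ = ‖w g‖ * ‖w g'‖ * (BB (p g * p g') / |g - g'|) := by
        rw [abs_mul, abs_of_pos hL]
        have : |g - g'| ≠ 0 := abs_ne_zero.2 hne
        field_simp

lemma Km_sum (S : Finset ℝ) (p : ℝ → Polynomial ℝ) (w : ℝ → ℂ) (L y : ℝ) :
    ‖∑ g ∈ S, w g * Km g (p g) L y‖ ^ 2 * y ^ 2 = (Icc 1 (Real.exp L)).indicator (GG S p w L) y := by
  by_cases h : y ∈ Icc 1 (Real.exp L)
  · rw [indicator_of_mem h]
    unfold GG Km
    congr 3
    refine Finset.sum_congr rfl fun g _ => ?_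
    have h' : 1 ≤ y ∧ y ≤ Real.exp L := h
    rw [if_pos h']
  · rw [indicator_of_notMem h]
    have : ∑ g ∈ S, w g * Km g (p g) L y = 0 := by
      refine Finset.sum_eq_zero fun g _ => ?_
      unfold Km
      have h' : ¬ (1 ≤ y ∧ y ≤ Real.exp L) := h
      rw [if_neg h', mul_zero]
    rw [this]
    simp

/-- **R4** -/
theorem tN : S_TN := by
  intro S p w
  refine ⟨∑ g ∈ S, ∑ g' ∈ S, ‖w g‖ * ‖w g'‖ * (BB (p g * p g') / |g - g'|) + 1, ?_, fun L hL => ?_⟩
  · have : 0 ≤ ∑ g ∈ S, ∑ g' ∈ S, ‖w g‖ * ‖w g'‖ * (BB (p g * p g') / |g - g'|) :=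
      Finset.sum_nonneg fun g _ => Finset.sum_nonneg fun g' _ => by
        have := BB_nonneg (p g * p g')
        positivity
    linarith
  have hL0 : 0 < L := by linarith
  have h1 : (1 : ℝ) ≤ Real.exp L := Real.one_le_exp hL0.le
  have hsub : Icc 1 (Real.exp L) ⊆ Ioi 0 := fun y hy => lt_of_lt_of_le one_pos hy.1
  have hint : IntegrableOn (GG S p w L) (Icc 1 (Real.exp L)) :=
    ((GG_cont S p w L).mono hsub).integrableOn_Icc
  have he : (fun y : ℝ => ‖∑ g ∈ S, w g * Km g (p g) L y‖ ^ 2 * y ^ 2) =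
      (Icc 1 (Real.exp L)).indicator (GG S p w L) := funext (Km_sum S p w L)
  rw [he]
  constructor
  · exact ((integrable_indicator_iff measurableSet_Icc).2 hint).integrableOn
  · rw [setIntegral_indicator measurableSet_Icc, inter_eq_right.2 hsub, integral_Icc_eq_integral_Ioc,
      ← intervalIntegral.integral_of_le h1, change S p w hL0]
    have := norm_le S p w hL0
    linarith

end Pool.Agent.Q210.BD
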