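import Pool.Agent.Q286.BD.Spec2

set_option autoImplicit false

/-!
# Project BD: band limited odd functions and fractional parts (job R2)
-/

namespace Pool.Agent.Q210.BD

open Complex MeasureTheory Filter Topology Set
open Pool.Agent.Q286.BD

lemma one_sub_exp (u : ℝ) : (1 : ℂ) - cexp (2 * Real.pi * u * I) =
    ((2 * Real.sin (Real.pi * u) : ℝ) : ℂ) * (Complex.cos ((Real.pi * u - Real.pi / 2 : ℝ) : ℂ) +
      Complex.sin ((Real.pi * u - Real.pi / 2 : ℝ) : ℂ) * I) := by
  rw [← Complex.ofReal_cos, ← Complex.ofReal_sin, Real.cos_sub_pi_div_two, Real.sin_sub_pi_div_two]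
  have e1 : (2 * (Real.pi : ℂ) * u * I) = ((2 * (Real.pi * u) : ℝ) : ℂ) * I := by
    push_cast
    ring
  rw [e1, Complex.exp_mul_I, ← Complex.ofReal_cos, ← Complex.ofReal_sin, Real.cos_two_mul, Real.sin_two_mul]
  have e2 := Real.sin_sq_add_cos_sq (Real.pi * u)
  have e3 : ((Real.sin (Real.pi * u) : ℝ) : ℂ) ^ 2 + ((Real.cos (Real.pi * u) : ℝ) : ℂ) ^ 2 = 1 := by
    exact_mod_cast e2
  push_cast at e3 ⊢
  linear_combination (-2 : ℂ) * e3

lemma exp_fract (t : ℝ) : cexp (2 * Real.pi * t * I) = cexp (2 * Real.pi * (Int.fract t : ℝ) * I) := by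
  have h : (t : ℂ) = ((Int.fract t : ℝ) : ℂ) + ((⌊t⌋ : ℤ) : ℂ) := by
    have := Int.fract_add_floor t
    exact_mod_cast this.symm
  have e : 2 * (Real.pi : ℂ) * t * I = 2 * Real.pi * (Int.fract t : ℝ) * I + ((⌊t⌋ : ℤ) : ℂ) * (2 * Real.pi * I) := by
    rw [h]
    ring
  rw [e, Complex.exp_add, Complex.exp_int_mul_two_pi_mul_I, mul_one]

lemma arg_one_sub {t : ℝ} (ht : Int.fract t ≠ 0) : arg (1 - cexp (2 * Real.pi * t * I)) = Real.pi * (Int.fract t - 1 / 2) := by
  have h0 : 0 < Int.fract t := lt_of_le_of_ne (Int.fract_nonneg t) (Ne.symm ht)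
  have h1 := Int.fract_lt_one t
  have hpi := Real.pi_pos
  rw [exp_fract, one_sub_exp, Complex.arg_mul_cos_add_sin_mul_I]
  · ring
  · have : 0 < Real.sin (Real.pi * Int.fract t) := Real.sin_pos_of_pos_of_lt_pi (by positivity) (by nlinarith)
    positivity
  · constructor <;> nlinarith

lemma slit {t : ℝ} (ht : Int.fract t ≠ 0) : (1 : ℂ) - cexp (2 * Real.pi * t * I) ∈ slitPlane := by
  have h0 : 0 < Int.fract t := lt_of_le_of_ne (Int.fract_nonneg t) (Ne.symm ht)
  have h1 := Int.fract_lt_one t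
  have hpi := Real.pi_pos
  have h2 : 0 < Real.sin (Real.pi * Int.fract t) := Real.sin_pos_of_pos_of_lt_pi (by positivity) (by nlinarith)
  left
  rw [exp_fract, one_sub_exp, ← Complex.ofReal_cos, ← Complex.ofReal_sin, Real.cos_sub_pi_div_two]
  rw [Complex.re_ofReal_mul, Complex.add_re, Complex.ofReal_re, Complex.re_ofReal_mul, Complex.I_re, mul_zero, add_zero]
  positivity

/-- the smoothed sawtooth -/
noncomputable def hr (r t : ℝ) : ℝ := arg (1 - r * cexp (2 * Real.pi * t * I))

lemma hr_meas (r : ℝ) : Measurable (hr r) := by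
  unfold hr
  refine Complex.measurable_arg.comp ?_
  exact (by fun_prop : Continuous fun t : ℝ => (1 : ℂ) - r * cexp (2 * Real.pi * t * I)).measurable

lemma hr_bd (r t : ℝ) : |hr r t| ≤ Real.pi := Complex.abs_arg_le_pi _

lemma norm_zr {r : ℝ} (h0 : 0 ≤ r) (t : ℝ) : ‖(r : ℂ) * cexp (2 * Real.pi * t * I)‖ = r := by
  have e : (2 * (Real.pi : ℂ) * t * I) = ((2 * Real.pi * t : ℝ) : ℂ) * I := by push_cast; ring
  rw [norm_mul, e, Complex.norm_exp_ofReal_mul_I, mul_one, Complex.norm_real, Real.norm_of_nonneg h0]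

lemma zr_pow (r t : ℝ) (k : ℕ) : (((r : ℂ) * cexp (2 * Real.pi * t * I)) ^ k / (k : ℂ)).im =
    r ^ k / k * Real.sin (2 * Real.pi * (k * t)) := by
  have e : ((r : ℂ) * cexp (2 * Real.pi * t * I)) ^ k / (k : ℂ) =
      ((r ^ k / k : ℝ) : ℂ) * cexp (((2 * Real.pi * (k * t) : ℝ) : ℂ) * I) := by
    rw [mul_pow, ← Complex.exp_nat_mul]
    push_cast
    have : (k : ℂ) * (2 * (Real.pi : ℂ) * t * I) = 2 * Real.pi * (k * t) * I := by ring
    rw [this]
    ring
  rw [e, Complex.im_ofReal_mul, Complex.exp_ofReal_mul_I_im]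

lemma hr_sum {r : ℝ} (h0 : 0 ≤ r) (h1 : r < 1) (t : ℝ) :
    HasSum (fun k : ℕ => r ^ k / k * Real.sin (2 * Real.pi * (k * t))) (-hr r t) := by
  have h := Complex.hasSum_taylorSeries_neg_log (z := (r : ℂ) * cexp (2 * Real.pi * t * I)) (by rw [norm_zr h0]; exact h1)
  have h2 := Complex.hasSum_im h
  have e : (-Complex.log (1 - (r : ℂ) * cexp (2 * Real.pi * t * I))).im = -hr r t := by
    rw [Complex.neg_im, Complex.log_im]
    rfl
  rw [e] at h2
  convert! h2 using 2 with k
  exact (zr_pow r t k).symm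

/-- the integral of an even function over the half line -/
lemma half_even (g : ℝ → ℂ) (hg : Integrable g) (he : ∀ y, g (-y) = g y) (h0 : ∫ y : ℝ, g y = 0) :
    ∫ y in Ioi (0 : ℝ), g y = 0 := by
  have h1 : ∫ y in Iic (0 : ℝ), g y = ∫ y in Ioi (0 : ℝ), g y := by
    have := integral_comp_neg_Iic (0 : ℝ) g
    rw [neg_zero] at this
    rw [← this]
    exact integral_congr_ae (Filter.Eventually.of_forall fun y => (he y).symm)
  have h2 := intervalIntegral.integral_Iic_add_Ioi (b := (0 : ℝ)) hg.integrableOn hg.integrableOn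
  rw [h1, h0] at h2
  have h3 : (2 : ℂ) * ∫ y in Ioi (0 : ℝ), g y = 0 := by rw [two_mul]; exact h2
  exact (mul_eq_zero.1 h3).resolve_left two_ne_zero

/-- **R2** -/
theorem band : S_band := by
  intro f lam hlam hf hfi hodd hspec hmean θ hθ
  have hθ0 : 0 < θ := lt_of_lt_of_le hlam hθ
  -- the harmonics
  have hharm : ∀ k : ℕ, 1 ≤ k → ∫ y in Ioi (0 : ℝ), ((Real.sin (2 * Real.pi * (k * (θ * y))) : ℝ) : ℂ) * f y = 0 := by
    intro k hk
    have hk1 : (1 : ℝ) ≤ k := by exact_mod_cast hk
    have hkθ : lam ≤ |(k : ℝ) * θ| := by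
      rw [abs_of_pos (by positivity)]
      nlinarith
    have i1 := hspec (k * θ) hkθ
    have i2 := hspec (-(k * θ)) (by rw [abs_neg]; exact hkθ)
    have hb : ∀ ξ : ℝ, Integrable (fun y : ℝ => cexp (-(2 * Real.pi * ξ * y * I)) * f y) := by
      intro ξ
      refine hfi.bdd_mul (c := 1) ?_ ?_
      · exact (by fun_prop : Continuous fun y : ℝ => cexp (-(2 * Real.pi * ξ * y * I))).aestronglyMeasurable
      · refine Filter.Eventually.of_forall fun y => ?_
        have e : (-(2 * (Real.pi : ℂ) * ξ * y * I)) = ((-(2 * Real.pi * ξ * y) : ℝ) : ℂ) * I := by push_cast; ring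
        rw [e, Complex.norm_exp_ofReal_mul_I]
    have hsin : ∀ y : ℝ, ((Real.sin (2 * Real.pi * (k * (θ * y))) : ℝ) : ℂ) * f y =
        (I / 2) * (cexp (-(2 * Real.pi * ((k * θ : ℝ) : ℂ) * y * I)) * f y) -
        (I / 2) * (cexp (-(2 * Real.pi * ((-(k * θ) : ℝ) : ℂ) * y * I)) * f y) := by
      intro y
      rw [Complex.ofReal_sin, Complex.sin]
      have e1 : -((2 * Real.pi * (k * (θ * y)) : ℝ) : ℂ) * I = -(2 * Real.pi * ((k * θ : ℝ) : ℂ) * y * I) := by
        push_cast; ring
      have e2 : ((2 * Real.pi * (k * (θ * y)) : ℝ) : ℂ) * I = -(2 * Real.pi * ((-(k * θ) : ℝ) : ℂ) * y * I) := by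
        push_cast; ring
      rw [e1, e2]
      ring
    refine half_even _ ?_ ?_ ?_
    · have : (fun y : ℝ => ((Real.sin (2 * Real.pi * (k * (θ * y))) : ℝ) : ℂ) * f y) = fun y : ℝ =>
        (I / 2) * (cexp (-(2 * Real.pi * ((k * θ : ℝ) : ℂ) * y * I)) * f y) -
        (I / 2) * (cexp (-(2 * Real.pi * ((-(k * θ) : ℝ) : ℂ) * y * I)) * f y) := funext hsin
      rw [this]
      exact ((hb _).const_mul _).sub ((hb _).const_mul _)
    · intro y
      rw [hodd, show 2 * Real.pi * ((k : ℝ) * (θ * -y)) = -(2 * Real.pi * (k * (θ * y))) by ring, Real.sin_neg]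
      push_cast
      ring
    · simp_rw [hsin]
      rw [integral_sub ((hb _).const_mul _) ((hb _).const_mul _), integral_const_mul, integral_const_mul, i1, i2]
      simp
  -- the smoothed sawtooth
  have hsm : ∀ r : ℝ, 0 ≤ r → r < 1 → ∫ y in Ioi (0 : ℝ), ((hr r (θ * y) : ℝ) : ℂ) * f y = 0 := by
    intro r h0 h1
    set F : ℕ → ℝ → ℂ := fun k y => ((r ^ k / k * Real.sin (2 * Real.pi * (k * (θ * y))) : ℝ) : ℂ) * f y with hF
    have hFn : ∀ k y, ‖F k y‖ ≤ r ^ k * ‖f y‖ := by
      intro k y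
      rw [hF]
      simp only
      rw [norm_mul, Complex.norm_real, Real.norm_eq_abs, abs_mul]
      refine mul_le_mul_of_nonneg_right ?_ (norm_nonneg _)
      have h2 := Real.abs_sin_le_one (2 * Real.pi * (k * (θ * y)))
      have h3 : |r ^ k / k| ≤ r ^ k := by
        rw [abs_of_nonneg (by positivity)]
        rcases Nat.eq_zero_or_pos k with hk | hk
        · subst hk
          simp
        · exact div_le_self (by positivity) (by exact_mod_cast hk)
      calc |r ^ k / k| * |Real.sin (2 * Real.pi * (k * (θ * y)))| ≤ r ^ k * 1 :=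
            mul_le_mul h3 h2 (abs_nonneg _) (by positivity)
        _ = r ^ k := mul_one _
    have hFi : ∀ k, Integrable (F k) (volume.restrict (Ioi 0)) := by
      intro k
      refine Integrable.mono' ((hfi.norm.const_mul (r ^ k)).restrict) ?_ (Filter.Eventually.of_forall (hFn k))
      refine AEStronglyMeasurable.mul ?_ hf.aestronglyMeasurable
      exact (by fun_prop : Continuous fun y : ℝ =>
        ((r ^ k / k * Real.sin (2 * Real.pi * (k * (θ * y))) : ℝ) : ℂ)).aestronglyMeasurable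
    have hFs : Summable fun k => ∫ y in Ioi (0 : ℝ), ‖F k y‖ := by
      refine Summable.of_nonneg_of_le (fun k => integral_nonneg fun y => norm_nonneg _) (fun k => ?_)
        ((summable_geometric_of_lt_one h0 h1).mul_right (∫ y in Ioi (0 : ℝ), ‖f y‖))
      rw [← integral_const_mul]
      exact integral_mono (hFi k).norm ((hfi.norm.const_mul (r ^ k)).restrict) (hFn k)
    have h2 := hasSum_integral_of_summable_integral_norm hFi hFs
    have h3 : ∀ k, ∫ y in Ioi (0 : ℝ), F k y = 0 := by
      intro k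
      rcases Nat.eq_zero_or_pos k with hk | hk
      · subst hk
        simp [hF]
      · have h4 := hharm k hk
        have h5 : ∀ y, F k y = ((r ^ k / k : ℝ) : ℂ) * (((Real.sin (2 * Real.pi * (k * (θ * y))) : ℝ) : ℂ) * f y) := by
          intro y
          rw [hF]
          push_cast
          ring
        simp_rw [h5]
        rw [integral_const_mul, h4, mul_zero]
    have h4 : ∫ y in Ioi (0 : ℝ), (∑' k, F k y) = 0 := by
      have := h2.unique (by
        simp_rw [h3]
        exact hasSum_zero)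
      exact this
    have h5 : ∀ y, ∑' k, F k y = -(((hr r (θ * y) : ℝ) : ℂ) * f y) := by
      intro y
      have h6 := ((Complex.hasSum_ofReal).2 (hr_sum h0 h1 (θ * y))).mul_right (f y)
      rw [h6.tsum_eq]
      push_cast
      ring
    simp_rw [h5] at h4
    rw [integral_neg, neg_eq_zero] at h4
    exact h4
  -- the limit
  have hlim : Tendsto (fun n : ℕ => ∫ y in Ioi (0 : ℝ), ((hr (1 - 1 / ((n : ℝ) + 1)) (θ * y) : ℝ) : ℂ) * f y) atTop
      (𝓝 (∫ y in Ioi (0 : ℝ), ((Real.pi * (Int.fract (θ * y) - 1 / 2) : ℝ) : ℂ) * f y)) := by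
    refine tendsto_integral_of_dominated_convergence (fun y => Real.pi * ‖f y‖) (fun n => ?_)
      ((hfi.norm.const_mul _).restrict) (fun n => ?_) ?_
    · refine AEStronglyMeasurable.mul ?_ hf.aestronglyMeasurable
      exact (Complex.measurable_ofReal.comp ((hr_meas _).comp (measurable_const_mul θ))).aestronglyMeasurable
    · refine Filter.Eventually.of_forall fun y => ?_
      rw [norm_mul, Complex.norm_real, Real.norm_eq_abs]
      exact mul_le_mul_of_nonneg_right (hr_bd _ _) (norm_nonneg _)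
    · have hnull : ∀ᵐ y : ℝ ∂volume, Int.fract (θ * y) ≠ 0 := by
        have hc : Set.Countable (Set.range fun m : ℤ => (m : ℝ) / θ) := Set.countable_range _
        have h1 := hc.ae_notMem (volume : Measure ℝ)
        filter_upwards [h1] with y hy h2
        apply hy
        rw [Int.fract_eq_zero_iff] at h2
        obtain ⟨m, hm⟩ := h2
        refine ⟨m, ?_⟩
        simp only
        rw [hm]
        field_simp
      refine (ae_restrict_of_ae hnull).mono fun y hy => ?_
      have h1 : Tendsto (fun n : ℕ => 1 - 1 / ((n : ℝ) + 1)) atTop (𝓝 1) := by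
        simpa using tendsto_const_nhds.sub (tendsto_one_div_add_atTop_nhds_zero_nat (𝕜 := ℝ))
      have h2 : ContinuousAt (fun r : ℝ => hr r (θ * y)) 1 := by
        unfold hr
        have h3 : ContinuousAt (fun r : ℝ => (1 : ℂ) - r * cexp (2 * Real.pi * ((θ * y : ℝ) : ℂ) * I)) 1 := by fun_prop
        refine ContinuousAt.comp (g := arg) ?_ h3
        refine Complex.continuousAt_arg ?_
        rw [Complex.ofReal_one, one_mul]
        exact slit hy
      have h3 := h2.tendsto.comp h1
      have h4 : hr 1 (θ * y) = Real.pi * (Int.fract (θ * y) - 1 / 2) := by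
        unfold hr
        rw [Complex.ofReal_one, one_mul]
        exact arg_one_sub hy
      rw [h4] at h3
      exact ((Complex.continuous_ofReal.tendsto _).comp h3).mul_const _
  have hzero : ∀ n : ℕ, ∫ y in Ioi (0 : ℝ), ((hr (1 - 1 / ((n : ℝ) + 1)) (θ * y) : ℝ) : ℂ) * f y = 0 := by
    intro n
    refine hsm _ ?_ ?_
    · have : 1 / ((n : ℝ) + 1) ≤ 1 := by
        rw [div_le_one (by positivity)]
        have : (0 : ℝ) ≤ n := Nat.cast_nonneg n
        linarith
      linarith
    · have : 0 < 1 / ((n : ℝ) + 1) := by positivity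
      linarith
  simp_rw [hzero] at hlim
  have h1 := tendsto_nhds_unique hlim tendsto_const_nhds
  have hfr : IntegrableOn (fun y : ℝ => ((Int.fract (θ * y) : ℝ) : ℂ) * f y) (Ioi 0) := by
    refine (hfi.restrict).bdd_mul (c := 1) ?_ ?_
    · exact (Complex.measurable_ofReal.comp (Measurable.fract (by fun_prop))).aestronglyMeasurable
    · refine Filter.Eventually.of_forall fun y => ?_
      rw [Complex.norm_real, Real.norm_eq_abs, Int.abs_fract]
      exact (Int.fract_lt_one _).le
  have h2 : ∀ y : ℝ, ((Real.pi * (Int.fract (θ * y) - 1 / 2) : ℝ) : ℂ) * f y =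
      (Real.pi : ℂ) * (((Int.fract (θ * y) : ℝ) : ℂ) * f y) - ((Real.pi / 2 : ℝ) : ℂ) * f y := by
    intro y
    push_cast
    ring
  simp_rw [h2] at h1
  rw [integral_sub (hfr.const_mul _) (hfi.restrict.const_mul _), integral_const_mul, integral_const_mul, hmean,
    mul_zero, sub_zero] at h1
  exact (mul_eq_zero.1 h1).resolve_left (by exact_mod_cast Real.pi_ne_zero)

end Pool.Agent.Q210.BD
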