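import Pool.Agent.Q286.BD.Spec2
import Pool.Agent.Helper240.ZU.A1

set_option autoImplicit false

/-!
# Project BD: orthogonality at a zero, real dilations (job R1)
-/

namespace Pool.Agent.Q210.BD

open Complex MeasureTheory Filter Topology Set
open Pool.Agent.Q286.BD

/-- the function whose Mellin transform is taken -/
noncomputable def ff (θ : ℝ) (j : ℕ) : ℝ → ℂ :=
  (Ioi (1 : ℝ)).indicator fun y => ((Int.fract (θ * y) : ℝ) : ℂ) * ((Real.log y : ℝ) : ℂ) ^ j

lemma ff_meas (θ : ℝ) (j : ℕ) : Measurable (ff θ j) := by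
  refine Measurable.indicator ?_ measurableSet_Ioi
  have h1 : Measurable (fun y : ℝ => Int.fract (θ * y)) := Measurable.fract (by fun_prop)
  have h2 : Measurable (fun y : ℝ => Real.log y) := Real.measurable_log
  exact (Complex.measurable_ofReal.comp h1).mul ((Complex.measurable_ofReal.comp h2).pow_const j)

lemma ff_bd (θ : ℝ) (j : ℕ) {y : ℝ} (hy : 1 < y) : ‖ff θ j y‖ ≤ Real.log y ^ j := by
  unfold ff
  rw [indicator_of_mem (mem_Ioi.2 hy), norm_mul, norm_pow, Complex.norm_real, Complex.norm_real,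
    Real.norm_eq_abs, Real.norm_eq_abs, Int.abs_fract, abs_of_nonneg (Real.log_nonneg hy.le)]
  exact mul_le_of_le_one_left (pow_nonneg (Real.log_nonneg hy.le) _) (Int.fract_lt_one _).le

lemma ff_left (θ : ℝ) (j : ℕ) {y : ℝ} (hy : y ≤ 1) : ff θ j y = 0 := by
  unfold ff
  rw [indicator_of_notMem]
  exact not_lt.2 hy

lemma ff_loc (θ : ℝ) (j : ℕ) : LocallyIntegrableOn (ff θ j) (Ioi 0) := by
  have h1 : LocallyIntegrable (fun y : ℝ => y ^ j) := (by fun_prop : Continuous fun y : ℝ => y ^ j).locallyIntegrable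
  refine (h1.mono (ff_meas θ j).aestronglyMeasurable (Filter.Eventually.of_forall fun y => ?_)).locallyIntegrableOn _
  rcases le_or_gt y 1 with h | h
  · rw [ff_left θ j h, norm_zero]
    exact norm_nonneg _
  · refine (ff_bd θ j h).trans ?_
    rw [norm_pow, Real.norm_of_nonneg (by linarith)]
    refine pow_le_pow_left₀ (Real.log_nonneg h.le) ?_ j
    have := Real.log_le_sub_one_of_pos (by linarith : 0 < y)
    linarith

lemma ff_top (θ : ℝ) (j : ℕ) {a : ℝ} (ha : a < 0) : ff θ j =O[atTop] (· ^ (-a)) := by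
  have h1 : (fun x : ℝ => Real.log x ^ (j : ℝ)) =o[atTop] fun x : ℝ => x ^ (-a) :=
    isLittleO_log_rpow_rpow_atTop _ (by linarith)
  refine Asymptotics.IsBigO.trans ?_ h1.isBigO
  refine Asymptotics.IsBigO.of_bound 1 ?_
  filter_upwards [eventually_gt_atTop (1 : ℝ)] with y hy
  rw [one_mul, Real.rpow_natCast, norm_pow, Real.norm_of_nonneg (Real.log_nonneg hy.le)]
  exact ff_bd θ j hy

lemma ff_bot (θ : ℝ) (j : ℕ) (b : ℝ) : ff θ j =O[𝓝[>] 0] (· ^ (-b)) := by
  have : ff θ j =ᶠ[𝓝[>] 0] fun _ => (0 : ℂ) := by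
    have h1 : Iio (1 : ℝ) ∈ 𝓝[>] (0 : ℝ) := mem_nhdsWithin_of_mem_nhds (Iio_mem_nhds one_pos)
    filter_upwards [h1] with y hy
    exact ff_left θ j (le_of_lt hy)
  exact this.trans_isBigO (Asymptotics.isBigO_zero _ _)

lemma ff_conv (θ : ℝ) (j : ℕ) {s : ℂ} (hs : s.re < 0) : MellinConvergent (ff θ j) s :=
  mellinConvergent_of_isBigO_rpow (a := s.re / 2) (b := s.re - 1) (ff_loc θ j) (ff_top θ j (by linarith))
    (by linarith) (ff_bot θ j _) (by linarith)

lemma ff_deriv (θ : ℝ) (j : ℕ) {s : ℂ} (hs : s.re < 0) :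
    HasDerivAt (mellin (ff θ j)) (mellin (ff θ (j + 1)) s) s := by
  have h := (mellin_hasDerivAt_of_isBigO_rpow (a := s.re / 2) (b := s.re - 1) (ff_loc θ j) (ff_top θ j (by linarith))
    (by linarith) (ff_bot θ j _) (by linarith) : _ ∧ HasDerivAt (mellin (ff θ j)) _ s).2
  have e : (fun t : ℝ => Real.log t • ff θ j t) = ff θ (j + 1) := by
    funext t
    unfold ff
    by_cases ht : t ∈ Ioi (1 : ℝ)
    · rw [indicator_of_mem ht, indicator_of_mem ht, Complex.real_smul]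
      ring
    · rw [indicator_of_notMem ht, indicator_of_notMem ht, smul_zero]
  rw [e] at h
  exact h

lemma mellin_ff (θ : ℝ) (j : ℕ) (s : ℂ) : mellin (ff θ j) s =
    ∫ y in Ioi (1 : ℝ), ((Int.fract (θ * y) : ℝ) : ℂ) * (y : ℂ) ^ (s - 1) * ((Real.log y : ℝ) : ℂ) ^ j := by
  unfold mellin
  have h1 : ∀ t : ℝ, (t : ℂ) ^ (s - 1) • ff θ j t = (Ioi (1 : ℝ)).indicator
      (fun y : ℝ => ((Int.fract (θ * y) : ℝ) : ℂ) * (y : ℂ) ^ (s - 1) * ((Real.log y : ℝ) : ℂ) ^ j) t := by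
    intro t
    unfold ff
    by_cases ht : t ∈ Ioi (1 : ℝ)
    · rw [indicator_of_mem ht, indicator_of_mem ht, smul_eq_mul]
      ring
    · rw [indicator_of_notMem ht, indicator_of_notMem ht, smul_zero]
  simp_rw [h1]
  rw [setIntegral_indicator measurableSet_Ioi]
  congr 2
  ext y
  simp only [mem_inter_iff, mem_Ioi]
  constructor
  · exact fun h => h.2
  · exact fun h => ⟨by linarith, h⟩

lemma conv_ff (θ : ℝ) (j : ℕ) {s : ℂ} (hs : s.re < 0) :
    IntegrableOn (fun y : ℝ => ((Int.fract (θ * y) : ℝ) : ℂ) * (y : ℂ) ^ (s - 1) * ((Real.log y : ℝ) : ℂ) ^ j) (Ioi 1) := by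
  have h := ff_conv θ j hs
  unfold MellinConvergent at h
  refine (h.mono_set (Ioi_subset_Ioi zero_le_one)).congr_fun (fun y hy => ?_) measurableSet_Ioi
  simp only [ff, smul_eq_mul, indicator_of_mem hy]
  ring

/-- the value of the transform -/
lemma value {θ : ℝ} (h0 : 0 < θ) (h1 : θ ≤ 1) {w : ℂ} (hw : w.re < 0) (hw1 : w ≠ -1) :
    mellin (ff θ 0) w + θ / (1 + w) = (θ : ℂ) ^ (-w) / w * riemannZeta (-w) := by
  rw [mellin_ff]
  simp only [pow_zero, mul_one]
  have hw0 : w ≠ 0 := by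
    rintro rfl
    simp at hw
  have hw1' : (1 : ℂ) + w ≠ 0 := by
    intro h
    apply hw1
    linear_combination h
  have hθ : (θ : ℂ) ≠ 0 := by exact_mod_cast h0.ne'
  -- scaling
  have e1 : ∀ y ∈ Ioi (1 : ℝ), ((Int.fract (θ * y) : ℝ) : ℂ) * (y : ℂ) ^ (w - 1) =
      (fun u : ℝ => ((Int.fract u : ℝ) : ℂ) * (u : ℂ) ^ (w - 1) * (θ : ℂ) ^ (1 - w)) (θ * y) := by
    intro y hy
    have hy0 : (0 : ℝ) ≤ y := by linarith [mem_Ioi.1 hy]
    simp only
    rw [Complex.ofReal_mul, Complex.mul_cpow_ofReal_nonneg h0.le hy0]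
    have : (θ : ℂ) ^ (w - 1) * (θ : ℂ) ^ (1 - w) = 1 := by
      rw [← Complex.cpow_add _ _ hθ, show w - 1 + (1 - w) = 0 by ring, Complex.cpow_zero]
    linear_combination (-((Int.fract (θ * y) : ℝ) : ℂ) * (y : ℂ) ^ (w - 1)) * this
  rw [setIntegral_congr_fun measurableSet_Ioi e1,
    integral_comp_mul_left_Ioi (fun u : ℝ => ((Int.fract u : ℝ) : ℂ) * (u : ℂ) ^ (w - 1) * (θ : ℂ) ^ (1 - w)) 1 h0,
    mul_one, integral_mul_const]
  have hint : ∀ c : ℝ, 0 < c → IntegrableOn (fun u : ℝ => ((Int.fract u : ℝ) : ℂ) * (u : ℂ) ^ (w - 1)) (Ioi c) := by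
    intro c hc
    have := ZU.J_a1.zf_int c hc (-w) (by simpa using hw)
    rwa [neg_neg] at this
  have e2 : ∫ u in Ioi θ, ((Int.fract u : ℝ) : ℂ) * (u : ℂ) ^ (w - 1) =
      (∫ u in Ioc θ 1, ((Int.fract u : ℝ) : ℂ) * (u : ℂ) ^ (w - 1)) +
        ∫ u in Ioi (1 : ℝ), ((Int.fract u : ℝ) : ℂ) * (u : ℂ) ^ (w - 1) := by
    rw [← Ioc_union_Ioi_eq_Ioi h1, setIntegral_union (by
      rw [Set.disjoint_left]
      intro x h1 h2
      exact absurd h1.2 (not_le.2 h2)) measurableSet_Ioi ((hint θ h0).mono_set Ioc_subset_Ioi_self) (hint 1 one_pos)]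
  have e3 : ∫ u in Ioc θ 1, ((Int.fract u : ℝ) : ℂ) * (u : ℂ) ^ (w - 1) = (1 - (θ : ℂ) ^ (w + 1)) / (w + 1) := by
    have h2 : ∫ u in Ioc θ 1, ((Int.fract u : ℝ) : ℂ) * (u : ℂ) ^ (w - 1) = ∫ u in Ioc θ 1, (u : ℂ) ^ w := by
      rw [integral_Ioc_eq_integral_Ioo, integral_Ioc_eq_integral_Ioo]
      refine setIntegral_congr_fun measurableSet_Ioo fun u hu => ?_
      have hu0 : 0 < u := lt_trans h0 hu.1
      have hu0' : (u : ℂ) ≠ 0 := by exact_mod_cast hu0.ne'
      have h3 : Int.fract u = u := Int.fract_eq_self.2 ⟨hu0.le, hu.2⟩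
      rw [h3, Complex.cpow_sub _ _ hu0', Complex.cpow_one]
      field_simp
    rw [h2, ← intervalIntegral.integral_of_le h1, integral_cpow]
    · rw [Complex.ofReal_one, Complex.one_cpow]
    · right
      refine ⟨hw1, ?_⟩
      rw [uIcc_of_le h1]
      intro h
      exact absurd h.1 (not_le.2 h0)
  have e4 := ZU.J_a1.zf_one (-w) (by simpa using hw) (by
    intro h
    apply hw1
    rw [← h, neg_neg])
  rw [neg_neg] at e4
  rw [e2, e3]
  have e5 : -w * ∫ u in Ioi (1 : ℝ), ((Int.fract u : ℝ) : ℂ) * (u : ℂ) ^ (w - 1) = 1 + 1 / (-w - 1) - riemannZeta (-w) := by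
    linear_combination e4
  have e6 : ∫ u in Ioi (1 : ℝ), ((Int.fract u : ℝ) : ℂ) * (u : ℂ) ^ (w - 1) =
      -(1 + 1 / (-w - 1) - riemannZeta (-w)) / w := by
    rw [← e5]
    field_simp
  rw [e6]
  have hw2 : -w - 1 ≠ 0 := by
    intro h
    apply hw1'
    linear_combination -h
  have e7 : (θ : ℂ) ^ (1 - w) = θ * (θ : ℂ) ^ (-w) := by
    rw [sub_eq_add_neg, Complex.cpow_add _ _ hθ, Complex.cpow_one]
  have e8 : (θ : ℂ) ^ (w + 1) * (θ : ℂ) ^ (-w) = θ := by
    rw [← Complex.cpow_add _ _ hθ, show w + 1 + -w = 1 by ring, Complex.cpow_one]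
  rw [e7, Complex.real_smul, Complex.ofReal_inv]
  have e9 : (1 + 1 / (-w - 1) - riemannZeta (-w)) = w / (w + 1) - riemannZeta (-w) := by
    have hw3 : w + 1 ≠ 0 := by rwa [add_comm]
    field_simp
    ring
  rw [e9]
  have hw3 : w + 1 ≠ 0 := by rwa [add_comm]
  have e10 : (1 : ℂ) + w = w + 1 := by ring
  rw [e10]
  field_simp
  linear_combination (-w) * e8

/-- a chain of derivatives -/
lemma iter_chain {U : Set ℂ} (hU : IsOpen U) (f : ℕ → ℂ → ℂ) (h : ∀ j, ∀ w ∈ U, HasDerivAt (f j) (f (j + 1) w) w)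
    (j : ℕ) : ∀ w ∈ U, iteratedDeriv j (f 0) w = f j w := by
  induction j with
  | zero => intro w _; rw [iteratedDeriv_zero]
  | succ j ih =>
    intro w hw
    rw [iteratedDeriv_succ]
    have : iteratedDeriv j (f 0) =ᶠ[𝓝 w] f j := by
      filter_upwards [hU.mem_nhds hw] with z hz
      exact ih z hz
    rw [this.deriv_eq]
    exact (h j w hw).deriv

lemma pole_deriv (c : ℂ) (j : ℕ) {w : ℂ} (hw : 1 + w ≠ 0) :
    HasDerivAt (fun w : ℂ => c * ((-1) ^ j * (j.factorial : ℂ) / (1 + w) ^ (j + 1)))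
      (c * ((-1) ^ (j + 1) * ((j + 1).factorial : ℂ) / (1 + w) ^ (j + 1 + 1))) w := by
  have h1 : HasDerivAt (fun w : ℂ => 1 + w) 1 w := (hasDerivAt_id w).const_add 1
  have h2 := (h1.pow (j + 1)).inv (pow_ne_zero _ hw)
  have h3 := (h2.const_mul ((-1) ^ j * (j.factorial : ℂ))).const_mul c
  refine (h3.congr_of_eventuallyEq (Filter.Eventually.of_forall fun z => ?_)).congr_deriv ?_
  · rw [div_eq_mul_inv]
    rfl
  · rw [Nat.factorial_succ]
    have e : ((fun w : ℂ => 1 + w) ^ (j + 1)) w = (1 + w) ^ (j + 1) := rfl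
    rw [e]
    push_cast
    field_simp
    ring

/-- **R1** -/
theorem orthR : S_orthR := by
  intro ρ h0 h1 j θ hj hθ0 hθ1
  have hre : (-ρ).re < 0 := by simpa using h0
  refine ⟨conv_ff θ j hre, ?_⟩
  rw [← mellin_ff]
  set U : Set ℂ := {w : ℂ | w.re < 0} ∩ {w : ℂ | w ≠ -1} with hUd
  have hU : IsOpen U := (isOpen_lt continuous_re continuous_const).inter isOpen_ne
  have hρU : -ρ ∈ U := by
    refine ⟨hre, ?_⟩
    intro h
    have : ρ = 1 := neg_injective h
    rw [this] at h1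
    simp at h1
  have hUne : ∀ w ∈ U, 1 + w ≠ 0 := by
    intro w hw h
    apply hw.2
    linear_combination h
  set f : ℕ → ℂ → ℂ := fun j w => mellin (ff θ j) w + θ * ((-1) ^ j * (j.factorial : ℂ) / (1 + w) ^ (j + 1)) with hf
  have hder : ∀ j, ∀ w ∈ U, HasDerivAt (f j) (f (j + 1) w) w := fun j w hw =>
    (ff_deriv θ j hw.1).add (pole_deriv θ j (hUne w hw))
  have hit := iter_chain hU f hder j (-ρ) hρU
  have hval : ∀ w ∈ U, f 0 w = (θ : ℂ) ^ (-w) / w * riemannZeta (-w) := by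
    intro w hw
    rw [← value hθ0 hθ1 hw.1 hw.2, hf]
    simp only [pow_zero, Nat.factorial_zero, Nat.cast_one, zero_add, pow_one, one_mul]
    ring
  have hw0 : ∀ w ∈ U, w ≠ 0 := by
    rintro w hw rfl
    have := hw.1
    simp at this
  have han : AnalyticAt ℂ (f 0) (-ρ) := by
    have : DifferentiableOn ℂ (f 0) U := fun w hw => (hder 0 w hw).differentiableAt.differentiableWithinAt
    exact this.analyticAt (hU.mem_nhds hρU)
  have hord : (((j + 1 : ℕ) : ℕ∞)) ≤ analyticOrderAt (f 0) (-ρ) := by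
    have hev : f 0 =ᶠ[𝓝 (-ρ)] (fun w : ℂ => (θ : ℂ) ^ (-w) / w) * (riemannZeta ∘ fun w : ℂ => -w) := by
      filter_upwards [hU.mem_nhds hρU] with w hw
      rw [hval w hw]
      rfl
    have hθ : (θ : ℂ) ≠ 0 := by exact_mod_cast hθ0.ne'
    have han1 : AnalyticAt ℂ (fun w : ℂ => (θ : ℂ) ^ (-w) / w) (-ρ) := by
      have : DifferentiableOn ℂ (fun w : ℂ => (θ : ℂ) ^ (-w) / w) U := by
        intro w hw
        refine DifferentiableAt.differentiableWithinAt ?_
        refine DifferentiableAt.div ?_ differentiableAt_id (hw0 w hw)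
        exact (differentiableAt_id.neg).const_cpow (Or.inl hθ)
      exact this.analyticAt (hU.mem_nhds hρU)
    have hne1 : ρ ≠ 1 := by
      rintro rfl
      simp at h1
    have hzan : AnalyticAt ℂ riemannZeta ρ := by
      have hU1 : IsOpen {s : ℂ | s ≠ 1} := isOpen_ne
      have hd : DifferentiableOn ℂ riemannZeta {s : ℂ | s ≠ 1} := fun z hz =>
        (differentiableAt_riemannZeta hz).differentiableWithinAt
      exact hd.analyticAt (hU1.mem_nhds hne1)
    have hneg : AnalyticAt ℂ (fun w : ℂ => -w) (-ρ) := by fun_prop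
    have hzan2 : AnalyticAt ℂ (riemannZeta ∘ fun w : ℂ => -w) (-ρ) := by
      refine AnalyticAt.comp ?_ hneg
      rw [neg_neg]
      exact hzan
    rw [analyticOrderAt_congr hev, analyticOrderAt_mul han1 hzan2]
    have h3 : deriv (fun w : ℂ => -w) (-ρ) ≠ 0 := by simp
    have h4 := analyticOrderAt_comp_of_deriv_ne_zero (f := riemannZeta) hneg h3
    rw [h4, neg_neg]
    have h5 : (((j + 1 : ℕ) : ℕ∞)) ≤ analyticOrderAt riemannZeta ρ := by
      have h6 : ((mz ρ : ℕ) : ℕ∞) ≤ analyticOrderAt riemannZeta ρ := by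
        unfold mz analyticOrderNatAt
        exact ENat.natCast_toNat_le_self _
      refine le_trans ?_ h6
      exact_mod_cast hj
    exact h5.trans (self_le_add_left _ _)
  rw [natCast_le_analyticOrderAt_iff_iteratedDeriv_eq_zero han] at hord
  have hz := hord j (Nat.lt_succ_self j)
  rw [hit, hf] at hz
  simp only at hz
  have e : (1 : ℂ) + -ρ = 1 - ρ := by ring
  rw [e] at hz
  exact eq_neg_of_add_eq_zero_left hz

/-- the special case of the integers -/
theorem orth : S_orth := by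
  intro ρ h0 h1 j n hj hn
  have hn0 : (0 : ℝ) < n := by exact_mod_cast hn
  have hn1 : (1 : ℝ) ≤ n := by exact_mod_cast hn
  have h := orthR ρ h0 h1 j (1 / n) hj (by positivity) (by rw [div_le_one hn0]; exact hn1)
  have e : ∀ y : ℝ, (1 / (n : ℝ)) * y = y / n := fun y => by ring
  simp only [e] at h
  push_cast at h ⊢
  exact h

end Pool.Agent.Q210.BD
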