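import Pool.Agent.Q286.BD.Spec
import Pool.Agent.Y23.Ze

set_option autoImplicit false

/-!
# Project BD: if RH fails the distance does not tend to zero (job E1)
-/

namespace Pool.Agent.Q210.BD

open Complex MeasureTheory Filter Topology Set
open Pool.Agent.Q286.BD
open Pool.Agent.Y23 (IsZ isZ_refl mu_pos)

theorem RH_of' (h : ∀ s : ℂ, 1 / 2 < s.re → riemannZeta s ≠ 0) : RiemannHypothesis := by
  intro s hs htriv h1
  by_contra hne
  rcases lt_or_gt_of_ne hne with hlt | hgt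
  · by_cases h0 : s.re < 0
    · -- trivial zeros
      have h2 : ∀ n : ℕ, (1 - s) ≠ -n := by
        intro n hn
        have := congrArg Complex.re hn
        simp at this
        have : (0:ℝ) ≤ n := Nat.cast_nonneg n
        linarith
      have h3 : (1 - s) ≠ 1 := by
        intro h3
        have := congrArg Complex.re h3
        simp at this
        linarith
      have key := riemannZeta_one_sub h2 h3
      rw [sub_sub_cancel, hs] at key
      have hz : riemannZeta (1 - s) ≠ 0 := riemannZeta_ne_zero_of_one_lt_re (by simp; linarith)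
      have hG : Complex.Gamma (1 - s) ≠ 0 := Complex.Gamma_ne_zero h2
      have hp : (2 * (Real.pi : ℂ)) ^ (-(1 - s)) ≠ 0 := by
        rw [Complex.cpow_ne_zero_iff]
        left
        have := Real.pi_ne_zero
        simp
      have hc : Complex.cos (Real.pi * (1 - s) / 2) = 0 := by
        by_contra hc
        exact (mul_ne_zero (mul_ne_zero (mul_ne_zero (mul_ne_zero two_ne_zero hp) hG) hc) hz) key.symm
      rw [Complex.cos_eq_zero_iff] at hc
      obtain ⟨k, hk⟩ := hc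
      have hpi : (Real.pi : ℂ) ≠ 0 := by exact_mod_cast Real.pi_ne_zero
      have hs2 : s = -2 * (k : ℂ) := by
        field_simp at hk
        linear_combination (-1 : ℂ) * hk
      have hkpos : 0 < k := by
        have := congrArg Complex.re hs2
        simp at this
        have h5 : (0:ℝ) < k := by linarith
        exact_mod_cast h5
      apply htriv
      refine ⟨(k - 1).toNat, ?_⟩
      have h6 : (((k - 1).toNat : ℕ) : ℂ) = (k : ℂ) - 1 := by
        have : (((k - 1).toNat : ℤ)) = k - 1 := Int.toNat_of_nonneg (by omega)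
        have h7 : (((k - 1).toNat : ℤ) : ℂ) = ((k - 1 : ℤ) : ℂ) := by rw [this]
        push_cast at h7
        exact_mod_cast h7
      rw [h6, hs2]
      ring
    · have h2 : ∀ n : ℕ, s ≠ -n := by
        intro n hn
        rcases Nat.eq_zero_or_pos n with h5 | h5
        · rw [hn, h5] at hs
          simp [riemannZeta_zero] at hs
        · have := congrArg Complex.re hn
          simp at this
          have h6 : (1:ℝ) ≤ n := by exact_mod_cast h5
          linarith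
      have key := riemannZeta_one_sub h2 h1
      rw [hs, mul_zero] at key
      exact h (1 - s) (by simp; linarith) key
  · exact h s hgt hs

lemma zero_right (h : ¬ RiemannHypothesis) : ∃ ρ : ℂ, IsZ ρ ∧ 1 / 2 < ρ.re := by
  by_contra hc
  push Not at hc
  apply h
  refine RH_of' fun s hs h0 => ?_
  have h1 : s.re < 1 := by
    by_contra hc
    exact riemannZeta_ne_zero_of_one_le_re (not_lt.1 hc) h0
  have := hc s ⟨h0, by linarith, h1⟩
  linarith

/-- the fractional part in the variable `x` is measurable and bounded by one -/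
lemma fr_meas (n : ℕ) : Measurable (fun x : ℝ => Int.fract (1 / (n * x))) := by
  refine Measurable.fract ?_
  fun_prop

lemma dif_meas (N : ℕ) (a : ℕ → ℝ) : Measurable (dif N a) := by
  unfold dif
  refine Measurable.sub ?_ ?_
  · exact Measurable.ite measurableSet_Iic measurable_const measurable_const
  · refine Finset.measurable_fun_sum _ fun n _ => ?_
    exact (fr_meas n).const_mul _

lemma dif_bd (N : ℕ) (a : ℕ → ℝ) (x : ℝ) : |dif N a x| ≤ 1 + ∑ n ∈ Finset.Icc 1 N, |a n| := by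
  unfold dif
  refine (abs_sub _ _).trans (add_le_add ?_ ?_)
  · split_ifs <;> norm_num
  · refine (Finset.abs_sum_le_sum_abs _ _).trans (Finset.sum_le_sum fun n _ => ?_)
    rw [abs_mul, Int.abs_fract]
    exact mul_le_of_le_one_right (abs_nonneg _) (Int.fract_lt_one _).le

/-- for `x > 1` -/
lemma dif_right (N : ℕ) (a : ℕ → ℝ) {x : ℝ} (hx : 1 < x) :
    dif N a x = -(∑ n ∈ Finset.Icc 1 N, a n / n) / x := by
  unfold dif
  rw [if_neg (not_le.2 hx), zero_sub, neg_div, Finset.sum_div]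
  congr 1
  refine Finset.sum_congr rfl fun n hn => ?_
  rw [Finset.mem_Icc] at hn
  have hn1 : (1 : ℝ) ≤ n := by exact_mod_cast hn.1
  have h1 : Int.fract (1 / ((n : ℝ) * x)) = 1 / (n * x) := by
    rw [Int.fract_eq_self]
    refine ⟨by positivity, ?_⟩
    rw [div_lt_one (by positivity)]
    nlinarith
  rw [h1]
  field_simp

lemma sq_right (N : ℕ) (a : ℕ → ℝ) : IntegrableOn (fun x : ℝ => dif N a x ^ 2) (Ioi 1) ∧
    ∫ x in Ioi (1 : ℝ), dif N a x ^ 2 = (∑ n ∈ Finset.Icc 1 N, a n / n) ^ 2 := by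
  set A := ∑ n ∈ Finset.Icc 1 N, a n / n with hA
  have h1 : ∀ x ∈ Ioi (1 : ℝ), dif N a x ^ 2 = A ^ 2 * x ^ (-2 : ℝ) := by
    intro x hx
    have hx0 : (0 : ℝ) < x := by linarith [mem_Ioi.1 hx]
    rw [dif_right N a hx, ← hA, Real.rpow_neg hx0.le]
    have : x ^ (2 : ℝ) = x ^ 2 := by
      rw [← Real.rpow_natCast]
      norm_num
    rw [this, div_pow, neg_sq]
    rfl
  constructor
  · refine IntegrableOn.congr_fun ?_ (fun x hx => (h1 x hx).symm) measurableSet_Ioi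
    exact (integrableOn_Ioi_rpow_of_lt (by norm_num) one_pos).const_mul _
  · rw [setIntegral_congr_fun measurableSet_Ioi h1, integral_const_mul,
      integral_Ioi_rpow_of_lt (by norm_num) one_pos]
    norm_num

lemma sq_left (N : ℕ) (a : ℕ → ℝ) : IntegrableOn (fun x : ℝ => dif N a x ^ 2) (Ioc 0 1) := by
  refine Measure.integrableOn_of_bounded (M := (1 + ∑ n ∈ Finset.Icc 1 N, |a n|) ^ 2) (by simp)
    ((dif_meas N a).pow_const 2).aestronglyMeasurable ?_
  refine Filter.Eventually.of_forall fun x => ?_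
  rw [norm_pow, Real.norm_eq_abs]
  exact pow_le_pow_left₀ (abs_nonneg _) (dif_bd N a x) 2

lemma JJ_split (N : ℕ) (a : ℕ → ℝ) : JJ N a = (∫ x in Ioc (0 : ℝ) 1, dif N a x ^ 2) +
    (∑ n ∈ Finset.Icc 1 N, a n / n) ^ 2 := by
  unfold JJ
  rw [← Ioc_union_Ioi_eq_Ioi (zero_le_one : (0 : ℝ) ≤ 1),
    setIntegral_union (by
      rw [Set.disjoint_left]
      intro x h1 h2
      exact absurd h1.2 (not_le.2 h2)) measurableSet_Ioi (sq_left N a) (sq_right N a).1, (sq_right N a).2]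

/-- the substitution `y = 1 / x` -/
lemma subst_inv (g : ℝ → ℂ) : ∫ y in Ioi (1 : ℝ), g y = ∫ x in Ioo (0 : ℝ) 1, ((x ^ 2)⁻¹ : ℝ) • g x⁻¹ := by
  have himg : (fun x : ℝ => x⁻¹) '' Ioo 0 1 = Ioi 1 := by
    ext y
    constructor
    · rintro ⟨x, hx, rfl⟩
      exact (one_lt_inv₀ hx.1).2 hx.2
    · intro hy
      have hy0 : (0 : ℝ) < y := by linarith [mem_Ioi.1 hy]
      exact ⟨y⁻¹, ⟨by positivity, inv_lt_one_of_one_lt₀ hy⟩, inv_inv y⟩
  have h := integral_image_eq_integral_abs_deriv_smul (s := Ioo (0 : ℝ) 1) (f := fun x : ℝ => x⁻¹)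
    (f' := fun x => -(x ^ 2)⁻¹) measurableSet_Ioo (fun x hx => (hasDerivAt_inv hx.1.ne').hasDerivWithinAt)
    (fun x _ y _ hxy => inv_injective hxy) g
  rw [himg] at h
  rw [h]
  refine setIntegral_congr_fun measurableSet_Ioo fun x hx => ?_
  simp only [abs_neg]
  rw [abs_of_nonneg (by positivity)]

/-- the pairing with the zero -/
lemma pairing (hO : S_orth) (N : ℕ) (a : ℕ → ℝ) {ρ : ℂ} (hρ : IsZ ρ) :
    ∫ x in Ioo (0 : ℝ) 1, ((dif N a x : ℝ) : ℂ) * (x : ℂ) ^ (ρ - 1) =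
      1 / ρ + ((∑ n ∈ Finset.Icc 1 N, a n / n : ℝ) : ℂ) / (1 - ρ) := by
  have hρ0 : ρ ≠ 0 := by
    rintro rfl
    have := hρ.2.1
    simp at this
  have hmu : 0 < mz ρ := mu_pos hρ
  have horth := fun n (hn : 1 ≤ n) => hO ρ hρ.2.1 hρ.2.2 0 n hmu hn
  simp only [pow_zero, mul_one, Nat.factorial_zero, Nat.cast_one, zero_add, pow_one, one_mul] at horth
  have h1 : IntegrableOn (fun y : ℝ => (y : ℂ) ^ (-ρ - 1)) (Ioi 1) := by
    refine integrableOn_Ioi_cpow_of_lt ?_ one_pos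
    simp only [sub_re, neg_re, one_re]
    linarith [hρ.2.1]
  have h2 : ∫ y in Ioi (1 : ℝ), (y : ℂ) ^ (-ρ - 1) = 1 / ρ := by
    rw [integral_Ioi_cpow_of_lt (by
      simp only [sub_re, neg_re, one_re]
      linarith [hρ.2.1]) one_pos]
    simp
  have h3 : ∫ y in Ioi (1 : ℝ), ((y : ℂ) ^ (-ρ - 1) - ∑ n ∈ Finset.Icc 1 N, (a n : ℂ) *
      (((Int.fract (y / (n : ℝ)) : ℝ) : ℂ) * (y : ℂ) ^ (-ρ - 1))) =
      1 / ρ + ((∑ n ∈ Finset.Icc 1 N, a n / n : ℝ) : ℂ) / (1 - ρ) := by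
    rw [integral_sub h1 (integrable_finsetSum _ fun n hn => by
      rw [Finset.mem_Icc] at hn
      exact (horth n hn.1).1.const_mul _), h2, integral_finsetSum _ (fun n hn => by
      rw [Finset.mem_Icc] at hn
      exact (horth n hn.1).1.const_mul _)]
    rw [sub_eq_add_neg]
    congr 1
    push_cast
    rw [← Finset.sum_neg_distrib, Finset.sum_div]
    refine Finset.sum_congr rfl fun n hn => ?_
    rw [Finset.mem_Icc] at hn
    rw [integral_const_mul, (horth n hn.1).2]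
    ring
  rw [← h3, subst_inv]
  refine setIntegral_congr_fun measurableSet_Ioo fun x hx => ?_
  have hx0 : (x : ℂ) ≠ 0 := by exact_mod_cast hx.1.ne'
  have harg : Complex.arg (x : ℂ) ≠ Real.pi := by
    rw [Complex.arg_ofReal_of_nonneg hx.1.le]
    exact Real.pi_ne_zero.symm
  have h4 : ((x⁻¹ : ℝ) : ℂ) ^ (-ρ - 1) = (x : ℂ) ^ (ρ + 1) := by
    rw [Complex.ofReal_inv, Complex.inv_cpow _ _ harg, show -ρ - 1 = -(ρ + 1) by ring, Complex.cpow_neg, inv_inv]
  have h5 : (x : ℂ) ^ (ρ + 1) = (x : ℂ) ^ (ρ - 1) * (x : ℂ) ^ 2 := by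
    rw [← Complex.cpow_natCast, ← Complex.cpow_add _ _ hx0]
    congr 1
    push_cast
    ring
  have h6 : ∀ n : ℕ, Int.fract (x⁻¹ / (n : ℝ)) = Int.fract (1 / ((n : ℝ) * x)) := by
    intro n
    congr 1
    rw [one_div, mul_inv, div_eq_mul_inv, mul_comm]
  have h7 : dif N a x = 1 - ∑ n ∈ Finset.Icc 1 N, a n * Int.fract (1 / (n * x)) := by
    unfold dif
    rw [if_pos hx.2.le]
  simp only [h6, h7]
  rw [h4, h5, Complex.real_smul]
  have h8 : ∑ n ∈ Finset.Icc 1 N, (a n : ℂ) * (((Int.fract (1 / ((n : ℝ) * x)) : ℝ) : ℂ) * ((x : ℂ) ^ (ρ - 1) * (x : ℂ) ^ 2)) =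
      ((∑ n ∈ Finset.Icc 1 N, a n * Int.fract (1 / (n * x)) : ℝ) : ℂ) * ((x : ℂ) ^ (ρ - 1) * (x : ℂ) ^ 2) := by
    push_cast
    rw [Finset.sum_mul]
    refine Finset.sum_congr rfl fun n _ => ?_
    ring
  rw [h8]
  have h9 : ((((x ^ 2)⁻¹ : ℝ) : ℂ)) * (x : ℂ) ^ 2 = 1 := by
    push_cast
    exact inv_mul_cancel₀ (pow_ne_zero 2 hx0)
  push_cast at h9 ⊢
  linear_combination (-(1 - ∑ n ∈ Finset.Icc 1 N, (a n : ℂ) * ((Int.fract (1 / (n * x)) : ℝ) : ℂ)) * (x : ℂ) ^ (ρ - 1)) * h9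

/-- **E1** -/
theorem nrh (hO : S_orth) : S_nrh := by
  intro hR
  obtain ⟨ρ, hρ, hβ⟩ := zero_right hR
  have hρ0 : ρ ≠ 0 := by
    rintro rfl
    have := hρ.2.1
    simp at this
  have hρ1 : (1 : ℂ) - ρ ≠ 0 := by
    intro h
    have := congrArg Complex.re h
    simp at this
    linarith [hρ.2.2]
  set β := ρ.re with hβd
  set P : ℝ := ‖1 / ρ‖ with hP
  set D : ℝ := 1 / (2 * β - 1) with hD
  set E : ℝ := 1 / ‖1 - ρ‖ with hE
  have hP0 : 0 < P := norm_pos_iff.2 (one_div_ne_zero hρ0)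
  have hD0 : 0 < D := by
    have : 0 < 2 * β - 1 := by linarith
    positivity
  have hE0 : 0 < E := by
    have : 0 < ‖1 - ρ‖ := norm_pos_iff.2 hρ1
    positivity
  set l : ℝ := (D + E) / P with hl
  have hl0 : 0 < l := by positivity
  refine ⟨P / (l * (1 + E)), by positivity, fun N a => ?_⟩
  set A : ℝ := ∑ n ∈ Finset.Icc 1 N, a n / n with hA
  have hsub : Ioo (0 : ℝ) 1 ⊆ Ioc 0 1 := Ioo_subset_Ioc_self
  have hI1 : IntegrableOn (fun x : ℝ => dif N a x ^ 2) (Ioo 0 1) := (sq_left N a).mono_set hsub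
  have hI2 : IntegrableOn (fun x : ℝ => x ^ (2 * β - 2)) (Ioo 0 1) := by
    rw [← integrableOn_Ioc_iff_integrableOn_Ioo, ← intervalIntegrable_iff_integrableOn_Ioc_of_le zero_le_one]
    exact intervalIntegral.intervalIntegrable_rpow' (by linarith)
  have hI2v : ∫ x in Ioo (0 : ℝ) 1, x ^ (2 * β - 2) = D := by
    rw [← integral_Ioc_eq_integral_Ioo, ← intervalIntegral.integral_of_le zero_le_one,
      integral_rpow (Or.inl (by linarith)), Real.one_rpow, Real.zero_rpow (by linarith)]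
    rw [hD]
    congr 1
    · ring
    · ring
  have hpair := pairing hO N a hρ
  have h1 : ‖∫ x in Ioo (0 : ℝ) 1, ((dif N a x : ℝ) : ℂ) * (x : ℂ) ^ (ρ - 1)‖ ≤
      l / 2 * (∫ x in Ioo (0 : ℝ) 1, dif N a x ^ 2) + 1 / (2 * l) * D := by
    refine (norm_integral_le_integral_norm _).trans ?_
    rw [← hI2v, ← integral_const_mul, ← integral_const_mul,
      ← integral_add (hI1.const_mul _) (hI2.const_mul _)]
    refine integral_mono_of_nonneg (Filter.Eventually.of_forall fun x => norm_nonneg _)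
      ((hI1.const_mul _).add (hI2.const_mul _)) ?_
    refine (ae_restrict_mem measurableSet_Ioo).mono fun x hx => ?_
    simp only [norm_mul, Complex.norm_real, Real.norm_eq_abs]
    rw [Complex.norm_cpow_eq_rpow_re_of_pos hx.1, Complex.sub_re, Complex.one_re]
    have h2 : x ^ (2 * β - 2) = (x ^ (β - 1)) ^ 2 := by
      rw [← Real.rpow_natCast, ← Real.rpow_mul hx.1.le]
      congr 1
      push_cast
      ring
    have h3 : |dif N a x| ^ 2 = dif N a x ^ 2 := sq_abs _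
    rw [h2, ← h3]
    have h4 : 0 ≤ (l * |dif N a x| - x ^ (β - 1)) ^ 2 := sq_nonneg _
    have h5 : |dif N a x| * x ^ (β - 1) * (2 * l) ≤ l ^ 2 * |dif N a x| ^ 2 + (x ^ (β - 1)) ^ 2 := by nlinarith
    have h6 : l / 2 * |dif N a x| ^ 2 + 1 / (2 * l) * (x ^ (β - 1)) ^ 2 =
        (l ^ 2 * |dif N a x| ^ 2 + (x ^ (β - 1)) ^ 2) / (2 * l) := by field_simp
    show |dif N a x| * x ^ (β - 1) ≤ l / 2 * |dif N a x| ^ 2 + 1 / (2 * l) * (x ^ (β - 1)) ^ 2
    rw [h6, le_div_iff₀ (by positivity)]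
    exact h5
  rw [hpair] at h1
  have h2 : P ≤ ‖1 / ρ + (A : ℂ) / (1 - ρ)‖ + |A| * E := by
    have e1 : (1 / ρ : ℂ) = (1 / ρ + (A : ℂ) / (1 - ρ)) - (A : ℂ) / (1 - ρ) := by ring
    have e2 : ‖(A : ℂ) / (1 - ρ)‖ = |A| * E := by
      rw [norm_div, Complex.norm_real, Real.norm_eq_abs, hE]
      ring
    calc P = ‖(1 / ρ + (A : ℂ) / (1 - ρ)) - (A : ℂ) / (1 - ρ)‖ := by rw [← e1]
      _ ≤ ‖1 / ρ + (A : ℂ) / (1 - ρ)‖ + ‖(A : ℂ) / (1 - ρ)‖ := norm_sub_le _ _
      _ = _ := by rw [e2]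
  have h3 : |A| ≤ (l * A ^ 2 + 1 / l) / 2 := by
    have h4 : 0 ≤ (l * |A| - 1) ^ 2 := sq_nonneg _
    have h5 : |A| * (2 * l) ≤ l ^ 2 * A ^ 2 + 1 := by nlinarith [sq_abs A]
    have h6 : (l * A ^ 2 + 1 / l) / 2 = (l ^ 2 * A ^ 2 + 1) / (2 * l) := by field_simp
    rw [h6, le_div_iff₀ (by positivity)]
    exact h5
  have hI0 : 0 ≤ ∫ x in Ioo (0 : ℝ) 1, dif N a x ^ 2 :=
    setIntegral_nonneg measurableSet_Ioo fun x _ => sq_nonneg _
  have hJ : JJ N a = (∫ x in Ioo (0 : ℝ) 1, dif N a x ^ 2) + A ^ 2 := by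
    rw [JJ_split, integral_Ioc_eq_integral_Ioo]
  set I0 : ℝ := ∫ x in Ioo (0 : ℝ) 1, dif N a x ^ 2 with hI0d
  have h4 : (D + E) / (2 * l) = P / 2 := by
    rw [hl]
    field_simp
  have h5 : P / 2 ≤ l / 2 * (1 + E) * JJ N a := by
    have h6 : |A| * E ≤ (l * A ^ 2 + 1 / l) / 2 * E := mul_le_mul_of_nonneg_right h3 hE0.le
    have h7 : 1 / (2 * l) * D + 1 / l / 2 * E = (D + E) / (2 * l) := by field_simp
    have h8 : 0 ≤ l / 2 * E * I0 := by positivity
    have h9 : 0 ≤ l / 2 * A ^ 2 := by positivity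
    rw [hJ]
    nlinarith
  rw [div_le_iff₀ (by positivity)]
  nlinarith

end Pool.Agent.Q210.BD
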