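import Pool.Agent.Q210.BD.OrthR
import Pool.Agent.Q210.BD.Nrh

set_option autoImplicit false

/-!
# Project BD: real dilations: integrability (job R1) and the distance without RH (job R6)
-/

namespace Pool.Agent.Q210.BD

open Complex MeasureTheory Filter Topology Set
open Pool.Agent.Q286.BD
open Pool.Agent.Y23 (IsZ isZ_refl mu_pos)

lemma difR_eq (a : ℝ →₀ ℝ) (x : ℝ) :
    difR a x = (if x ≤ 1 then 1 else 0) - ∑ θ ∈ a.support, a θ * Int.fract (θ / x) := rfl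

lemma difR_meas (a : ℝ →₀ ℝ) : Measurable (difR a) := by
  have : difR a = fun x : ℝ => (if x ≤ 1 then 1 else 0) - ∑ θ ∈ a.support, a θ * Int.fract (θ / x) :=
    funext fun x => difR_eq a x
  rw [this]
  refine Measurable.sub ?_ ?_
  · exact Measurable.ite measurableSet_Iic measurable_const measurable_const
  · refine Finset.measurable_fun_sum _ fun θ _ => ?_
    exact (Measurable.fract (by fun_prop)).const_mul _

lemma difR_bd (a : ℝ →₀ ℝ) (x : ℝ) : |difR a x| ≤ 1 + ∑ θ ∈ a.support, |a θ| := by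
  rw [difR_eq]
  refine (abs_sub _ _).trans (add_le_add ?_ ?_)
  · split_ifs <;> norm_num
  · refine (Finset.abs_sum_le_sum_abs _ _).trans (Finset.sum_le_sum fun n _ => ?_)
    rw [abs_mul, Int.abs_fract]
    exact mul_le_of_le_one_right (abs_nonneg _) (Int.fract_lt_one _).le

/-- for `x > 1` -/
lemma difR_right (a : ℝ →₀ ℝ) (ha : ∀ θ ∈ a.support, 0 < θ ∧ θ ≤ 1) {x : ℝ} (hx : 1 < x) :
    difR a x = -(∑ θ ∈ a.support, a θ * θ) / x := by
  rw [difR_eq, if_neg (not_le.2 hx), zero_sub, neg_div, Finset.sum_div]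
  congr 1
  refine Finset.sum_congr rfl fun θ hθ => ?_
  obtain ⟨h0, h1⟩ := ha θ hθ
  have h2 : Int.fract (θ / x) = θ / x := by
    rw [Int.fract_eq_self]
    refine ⟨by positivity, ?_⟩
    rw [div_lt_one (by positivity)]
    linarith
  rw [h2]
  ring

lemma sqR_right (a : ℝ →₀ ℝ) (ha : ∀ θ ∈ a.support, 0 < θ ∧ θ ≤ 1) :
    IntegrableOn (fun x : ℝ => difR a x ^ 2) (Ioi 1) ∧
    ∫ x in Ioi (1 : ℝ), difR a x ^ 2 = (∑ θ ∈ a.support, a θ * θ) ^ 2 := by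
  set A := ∑ θ ∈ a.support, a θ * θ with hA
  have h1 : ∀ x ∈ Ioi (1 : ℝ), difR a x ^ 2 = A ^ 2 * x ^ (-2 : ℝ) := by
    intro x hx
    have hx0 : (0 : ℝ) < x := by linarith [mem_Ioi.1 hx]
    rw [difR_right a ha hx, ← hA, Real.rpow_neg hx0.le]
    have : x ^ (2 : ℝ) = x ^ 2 := by
      rw [← Real.rpow_natCast]
      norm_num
    rw [this, div_pow, neg_sq]
    rfl
  constructor
  · refine IntegrableOn.congr_fun ?_ (fun x hx => (h1 x hx).symm) measurableSet_Ioi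
    exact (integrableOn_Ioi_rpow_of_lt (by norm_num) one_pos).const_mul _
  · rw [setIntegral_congr_fun measurableSet_Ioi h1, integral_const_mul,
      integral_Ioi_rpow_of_lt (by norm_num) one_pos]
    norm_num

lemma sqR_left (a : ℝ →₀ ℝ) : IntegrableOn (fun x : ℝ => difR a x ^ 2) (Ioc 0 1) := by
  refine Measure.integrableOn_of_bounded (M := (1 + ∑ θ ∈ a.support, |a θ|) ^ 2) (by simp)
    ((difR_meas a).pow_const 2).aestronglyMeasurable ?_
  refine Filter.Eventually.of_forall fun x => ?_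
  rw [norm_pow, Real.norm_eq_abs]
  exact pow_le_pow_left₀ (abs_nonneg _) (difR_bd a x) 2

/-- **R1**, integrability -/
theorem intR : S_intR := by
  intro a ha
  rw [← Ioc_union_Ioi_eq_Ioi (zero_le_one : (0 : ℝ) ≤ 1)]
  exact (sqR_left a).union (sqR_right a ha).1

lemma JR_split (a : ℝ →₀ ℝ) (ha : ∀ θ ∈ a.support, 0 < θ ∧ θ ≤ 1) :
    JR a = (∫ x in Ioc (0 : ℝ) 1, difR a x ^ 2) + (∑ θ ∈ a.support, a θ * θ) ^ 2 := by
  unfold JR
  rw [← Ioc_union_Ioi_eq_Ioi (zero_le_one : (0 : ℝ) ≤ 1),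
    setIntegral_union (by
      rw [Set.disjoint_left]
      intro x h1 h2
      exact absurd h1.2 (not_le.2 h2)) measurableSet_Ioi (sqR_left a) (sqR_right a ha).1, (sqR_right a ha).2]

/-- the pairing with the zero -/
lemma pairingR (a : ℝ →₀ ℝ) (ha : ∀ θ ∈ a.support, 0 < θ ∧ θ ≤ 1) {ρ : ℂ} (hρ : IsZ ρ) :
    ∫ x in Ioo (0 : ℝ) 1, ((difR a x : ℝ) : ℂ) * (x : ℂ) ^ (ρ - 1) =
      1 / ρ + ((∑ θ ∈ a.support, a θ * θ : ℝ) : ℂ) / (1 - ρ) := by
  have hmu : 0 < mz ρ := mu_pos hρ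
  have horth := fun θ (h0 : 0 < θ) (h1 : θ ≤ 1) => orthR ρ hρ.2.1 hρ.2.2 0 θ hmu h0 h1
  simp only [pow_zero, mul_one, Nat.factorial_zero, Nat.cast_one, zero_add, pow_one] at horth
  have h1 : IntegrableOn (fun y : ℝ => (y : ℂ) ^ (-ρ - 1)) (Ioi 1) := by
    refine integrableOn_Ioi_cpow_of_lt ?_ one_pos
    simp only [sub_re, neg_re, one_re]
    linarith [hρ.2.1]
  have h2 : ∫ y in Ioi (1 : ℝ), (y : ℂ) ^ (-ρ - 1) = 1 / ρ := by
    rw [integral_Ioi_cpow_of_lt (by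
      simp only [sub_re, neg_re, one_re]
      linarith [hρ.2.1]) one_pos]
    simp
  have h3 : ∫ y in Ioi (1 : ℝ), ((y : ℂ) ^ (-ρ - 1) - ∑ θ ∈ a.support, (a θ : ℂ) *
      (((Int.fract (θ * y) : ℝ) : ℂ) * (y : ℂ) ^ (-ρ - 1))) =
      1 / ρ + ((∑ θ ∈ a.support, a θ * θ : ℝ) : ℂ) / (1 - ρ) := by
    rw [integral_sub h1 (integrable_finsetSum _ fun θ hθ => by
      exact (horth θ (ha θ hθ).1 (ha θ hθ).2).1.const_mul _), h2, integral_finsetSum _ (fun θ hθ => by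
      exact (horth θ (ha θ hθ).1 (ha θ hθ).2).1.const_mul _)]
    rw [sub_eq_add_neg]
    congr 1
    push_cast
    rw [← Finset.sum_neg_distrib, Finset.sum_div]
    refine Finset.sum_congr rfl fun θ hθ => ?_
    rw [integral_const_mul, (horth θ (ha θ hθ).1 (ha θ hθ).2).2]
    ring
  rw [← h3, subst_inv]
  refine setIntegral_congr_fun measurableSet_Ioo fun x hx => ?_
  have hx0 : (x : ℂ) ≠ 0 := by exact_mod_cast hx.1.ne'
  have harg : Complex.arg (x : ℂ) ≠ Real.pi := by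
    rw [Complex.arg_ofReal_of_nonneg hx.1.le]
    exact Real.pi_ne_zero.symm
  have h4 : ((x⁻¹ : ℝ) : ℂ) ^ (-ρ - 1) = (x : ℂ) ^ (ρ + 1) := by
    rw [Complex.ofReal_inv, Complex.inv_cpow _ _ harg, show -ρ - 1 = -(ρ + 1) by ring, Complex.cpow_neg, inv_inv]
  have h5 : (x : ℂ) ^ (ρ + 1) = (x : ℂ) ^ (ρ - 1) * (x : ℂ) ^ 2 := by
    rw [← Complex.cpow_natCast, ← Complex.cpow_add _ _ hx0]
    congr 1
    push_cast
    ring
  have h7 : difR a x = 1 - ∑ θ ∈ a.support, a θ * Int.fract (θ * x⁻¹) := by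
    rw [difR_eq, if_pos hx.2.le]
    rfl
  simp only [h7]
  rw [h4, h5, Complex.real_smul]
  have h8 : ∑ θ ∈ a.support, (a θ : ℂ) * (((Int.fract (θ * x⁻¹) : ℝ) : ℂ) * ((x : ℂ) ^ (ρ - 1) * (x : ℂ) ^ 2)) =
      ((∑ θ ∈ a.support, a θ * Int.fract (θ * x⁻¹) : ℝ) : ℂ) * ((x : ℂ) ^ (ρ - 1) * (x : ℂ) ^ 2) := by
    push_cast
    rw [Finset.sum_mul]
    refine Finset.sum_congr rfl fun n _ => ?_
    ring
  rw [h8]
  have h9 : ((((x ^ 2)⁻¹ : ℝ) : ℂ)) * (x : ℂ) ^ 2 = 1 := by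
    push_cast
    exact inv_mul_cancel₀ (pow_ne_zero 2 hx0)
  push_cast at h9 ⊢
  linear_combination (-(1 - ∑ θ ∈ a.support, (a θ : ℂ) * ((Int.fract (θ * x⁻¹) : ℝ) : ℂ)) * (x : ℂ) ^ (ρ - 1)) * h9

/-- **R6** -/
theorem nrhR : S_nrhR := by
  intro hR
  obtain ⟨ρ, hρ, hβ⟩ := zero_right hR
  have hρ0 : ρ ≠ 0 := by
    rintro rfl
    have := hρ.2.1
    simp at this
  have hρ1 : (1 : ℂ) - ρ ≠ 0 := by
    intro h
    have := congrArg Complex.re h
    simp at this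
    linarith [hρ.2.2]
  set β := ρ.re with hβd
  set P : ℝ := ‖1 / ρ‖ with hP
  set D : ℝ := 1 / (2 * β - 1) with hD
  set E : ℝ := 1 / ‖1 - ρ‖ with hE
  have hP0 : 0 < P := norm_pos_iff.2 (one_div_ne_zero hρ0)
  have hD0 : 0 < D := by
    have : 0 < 2 * β - 1 := by linarith
    positivity
  have hE0 : 0 < E := by
    have : 0 < ‖1 - ρ‖ := norm_pos_iff.2 hρ1
    positivity
  set l : ℝ := (D + E) / P with hl
  have hl0 : 0 < l := by positivity
  refine ⟨P / (l * (1 + E)), by positivity, fun a ha => ?_⟩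
  set A : ℝ := ∑ θ ∈ a.support, a θ * θ with hA
  have hsub : Ioo (0 : ℝ) 1 ⊆ Ioc 0 1 := Ioo_subset_Ioc_self
  have hI1 : IntegrableOn (fun x : ℝ => difR a x ^ 2) (Ioo 0 1) := (sqR_left a).mono_set hsub
  have hI2 : IntegrableOn (fun x : ℝ => x ^ (2 * β - 2)) (Ioo 0 1) := by
    rw [← integrableOn_Ioc_iff_integrableOn_Ioo, ← intervalIntegrable_iff_integrableOn_Ioc_of_le zero_le_one]
    exact intervalIntegral.intervalIntegrable_rpow' (by linarith)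
  have hI2v : ∫ x in Ioo (0 : ℝ) 1, x ^ (2 * β - 2) = D := by
    rw [← integral_Ioc_eq_integral_Ioo, ← intervalIntegral.integral_of_le zero_le_one,
      integral_rpow (Or.inl (by linarith)), Real.one_rpow, Real.zero_rpow (by linarith)]
    rw [hD]
    congr 1
    · ring
    · ring
  have hpair := pairingR a ha hρ
  have h1 : ‖∫ x in Ioo (0 : ℝ) 1, ((difR a x : ℝ) : ℂ) * (x : ℂ) ^ (ρ - 1)‖ ≤
      l / 2 * (∫ x in Ioo (0 : ℝ) 1, difR a x ^ 2) + 1 / (2 * l) * D := by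
    refine (norm_integral_le_integral_norm _).trans ?_
    rw [← hI2v, ← integral_const_mul, ← integral_const_mul,
      ← integral_add (hI1.const_mul _) (hI2.const_mul _)]
    refine integral_mono_of_nonneg (Filter.Eventually.of_forall fun x => norm_nonneg _)
      ((hI1.const_mul _).add (hI2.const_mul _)) ?_
    refine (ae_restrict_mem measurableSet_Ioo).mono fun x hx => ?_
    simp only [norm_mul, Complex.norm_real, Real.norm_eq_abs]
    rw [Complex.norm_cpow_eq_rpow_re_of_pos hx.1, Complex.sub_re, Complex.one_re]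
    have h2 : x ^ (2 * β - 2) = (x ^ (β - 1)) ^ 2 := by
      rw [← Real.rpow_natCast, ← Real.rpow_mul hx.1.le]
      congr 1
      push_cast
      ring
    have h3 : |difR a x| ^ 2 = difR a x ^ 2 := sq_abs _
    rw [h2, ← h3]
    have h4 : 0 ≤ (l * |difR a x| - x ^ (β - 1)) ^ 2 := sq_nonneg _
    have h5 : |difR a x| * x ^ (β - 1) * (2 * l) ≤ l ^ 2 * |difR a x| ^ 2 + (x ^ (β - 1)) ^ 2 := by nlinarith
    have h6 : l / 2 * |difR a x| ^ 2 + 1 / (2 * l) * (x ^ (β - 1)) ^ 2 =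
        (l ^ 2 * |difR a x| ^ 2 + (x ^ (β - 1)) ^ 2) / (2 * l) := by field_simp
    show |difR a x| * x ^ (β - 1) ≤ l / 2 * |difR a x| ^ 2 + 1 / (2 * l) * (x ^ (β - 1)) ^ 2
    rw [h6, le_div_iff₀ (by positivity)]
    exact h5
  rw [hpair] at h1
  have h2 : P ≤ ‖1 / ρ + (A : ℂ) / (1 - ρ)‖ + |A| * E := by
    have e1 : (1 / ρ : ℂ) = (1 / ρ + (A : ℂ) / (1 - ρ)) - (A : ℂ) / (1 - ρ) := by ring
    have e2 : ‖(A : ℂ) / (1 - ρ)‖ = |A| * E := by
      rw [norm_div, Complex.norm_real, Real.norm_eq_abs, hE]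
      ring
    calc P = ‖(1 / ρ + (A : ℂ) / (1 - ρ)) - (A : ℂ) / (1 - ρ)‖ := by rw [← e1]
      _ ≤ ‖1 / ρ + (A : ℂ) / (1 - ρ)‖ + ‖(A : ℂ) / (1 - ρ)‖ := norm_sub_le _ _
      _ = _ := by rw [e2]
  have h3 : |A| ≤ (l * A ^ 2 + 1 / l) / 2 := by
    have h4 : 0 ≤ (l * |A| - 1) ^ 2 := sq_nonneg _
    have h5 : |A| * (2 * l) ≤ l ^ 2 * A ^ 2 + 1 := by nlinarith [sq_abs A]
    have h6 : (l * A ^ 2 + 1 / l) / 2 = (l ^ 2 * A ^ 2 + 1) / (2 * l) := by field_simp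
    rw [h6, le_div_iff₀ (by positivity)]
    exact h5
  have hI0 : 0 ≤ ∫ x in Ioo (0 : ℝ) 1, difR a x ^ 2 :=
    setIntegral_nonneg measurableSet_Ioo fun x _ => sq_nonneg _
  have hJ : JR a = (∫ x in Ioo (0 : ℝ) 1, difR a x ^ 2) + A ^ 2 := by
    rw [JR_split a ha, integral_Ioc_eq_integral_Ioo]
  set I0 : ℝ := ∫ x in Ioo (0 : ℝ) 1, difR a x ^ 2 with hI0d
  have h4 : (D + E) / (2 * l) = P / 2 := by
    rw [hl]
    field_simp
  have h5 : P / 2 ≤ l / 2 * (1 + E) * JR a := by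
    have h6 : |A| * E ≤ (l * A ^ 2 + 1 / l) / 2 * E := mul_le_mul_of_nonneg_right h3 hE0.le
    have h7 : 1 / (2 * l) * D + 1 / l / 2 * E = (D + E) / (2 * l) := by field_simp
    have h8 : 0 ≤ l / 2 * E * I0 := by positivity
    have h9 : 0 ≤ l / 2 * A ^ 2 := by positivity
    rw [hJ]
    nlinarith
  rw [div_le_iff₀ (by positivity)]
  nlinarith

end Pool.Agent.Q210.BD
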