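import Pool.Agent.Q286.BD.Spec2

set_option autoImplicit false

/-!
# Project BD: Burnol's lower bound for real dilations (job R5)
-/

namespace Pool.Agent.Q210.BD

open Complex MeasureTheory Filter Topology Set
open Pool.Agent.Q286.BD

/-- the distance in the variable `y = 1 / x` -/
theorem JR_inv (h3 : S_intR) (a : ℝ →₀ ℝ) (ha : ∀ θ ∈ a.support, 0 < θ ∧ θ ≤ 1) :
    IntegrableOn (fun y : ℝ => (difR a (1 / y) / y) ^ 2) (Ioi 0) ∧
      ∫ y in Ioi (0 : ℝ), (difR a (1 / y) / y) ^ 2 = JR a := by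
  have e : ∀ y ∈ Ioi (0 : ℝ), (|(-1 : ℝ)| * y ^ ((-1 : ℝ) - 1)) • difR a (y ^ (-1 : ℝ)) ^ 2 =
      (difR a (1 / y) / y) ^ 2 := by
    intro y hy
    have hy0 : (0 : ℝ) < y := hy
    rw [Real.rpow_neg_one, show ((-1 : ℝ) - 1) = -(2 : ℕ) by norm_num, Real.rpow_neg hy0.le,
      Real.rpow_natCast, smul_eq_mul, abs_neg, abs_one, one_mul, div_pow, one_div]
    rw [mul_comm, div_eq_mul_inv]
  constructor
  · have h1 := (integrableOn_Ioi_comp_rpow_iff (fun x : ℝ => difR a x ^ 2)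
      (show (-1 : ℝ) ≠ 0 by norm_num)).2 (h3 a ha)
    exact h1.congr_fun e measurableSet_Ioi
  · have h1 := integral_comp_rpow_Ioi (fun x : ℝ => difR a x ^ 2)
      (show (-1 : ℝ) ≠ 0 by norm_num)
    rw [setIntegral_congr_fun measurableSet_Ioi e] at h1
    exact h1

theorem difR_inv (a : ℝ →₀ ℝ) {y : ℝ} (hy : 0 < y) :
    difR a (1 / y) = (if 1 ≤ y then 1 else 0) - ∑ θ ∈ a.support, a θ * Int.fract (θ * y) := by
  have h0 : difR a (1 / y) = (if 1 / y ≤ 1 then 1 else 0) - ∑ θ ∈ a.support, a θ * Int.fract (θ / (1 / y)) := rfl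
  rw [h0]
  congr 1
  · by_cases h : 1 ≤ y
    · rw [if_pos h, if_pos (by rw [div_le_one hy]; exact h)]
    · rw [if_neg h, if_neg (by rw [div_le_one hy]; exact h)]
  · refine Finset.sum_congr rfl fun θ _ => ?_
    congr 2
    field_simp

theorem frK {K : ℝ → ℂ} (hK : IntegrableOn K (Ioi 0)) (θ : ℝ) :
    IntegrableOn (fun y : ℝ => ((Int.fract (θ * y) : ℝ) : ℂ) * K y) (Ioi 0) := by
  refine Integrable.bdd_mul (c := 1) hK ?_ ?_
  · exact (Complex.measurable_ofReal.comp (Measurable.fract (by fun_prop))).aestronglyMeasurable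
  · refine Filter.Eventually.of_forall fun y => ?_
    rw [Complex.norm_real, Real.norm_eq_abs, Int.abs_fract]
    exact (Int.fract_lt_one _).le

/-- the pairing with an orthogonal test function -/
theorem pairK (a : ℝ →₀ ℝ) {K : ℝ → ℂ} (hK : IntegrableOn K (Ioi 0))
    (ho : ∀ θ ∈ a.support, ∫ y in Ioi (0 : ℝ), ((Int.fract (θ * y) : ℝ) : ℂ) * K y = 0) :
    IntegrableOn (fun y : ℝ => ((difR a (1 / y) : ℝ) : ℂ) * K y) (Ioi 0) ∧
    ∫ y in Ioi (0 : ℝ), ((difR a (1 / y) : ℝ) : ℂ) * K y = ∫ y in Ioi (1 : ℝ), K y := by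
  have h1 : IntegrableOn K (Ioi 1) := hK.mono_set (Ioi_subset_Ioi zero_le_one)
  have h4 : IntegrableOn (fun y : ℝ => (Ici (1 : ℝ)).indicator K y) (Ioi 0) := by
    have h5 : IntegrableOn K (Ici 1) := integrableOn_Ici_iff_integrableOn_Ioi (by simp) |>.2 h1
    exact ((integrable_indicator_iff measurableSet_Ici).2 h5).integrableOn
  have h6 : IntegrableOn (fun y : ℝ => ∑ θ ∈ a.support, (a θ : ℂ) *
      (((Int.fract (θ * y) : ℝ) : ℂ) * K y)) (Ioi 0) :=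
    integrable_finsetSum _ fun θ _ => (frK hK θ).const_mul _
  have e : ∀ y ∈ Ioi (0 : ℝ), ((difR a (1 / y) : ℝ) : ℂ) * K y =
      (Ici (1 : ℝ)).indicator K y - ∑ θ ∈ a.support, (a θ : ℂ) *
      (((Int.fract (θ * y) : ℝ) : ℂ) * K y) := by
    intro y hy
    rw [difR_inv a hy]
    push_cast
    rw [sub_mul, Finset.sum_mul]
    congr 1
    · by_cases h : 1 ≤ y
      · rw [if_pos h, indicator_of_mem (show y ∈ Ici 1 from h)]
        simp
      · rw [if_neg h, indicator_of_notMem (show y ∉ Ici 1 from h)]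
        simp
    · exact Finset.sum_congr rfl fun n _ => mul_assoc _ _ _
  constructor
  · exact (h4.sub h6).congr_fun (fun y hy => (e y hy).symm) measurableSet_Ioi
  · rw [setIntegral_congr_fun measurableSet_Ioi e, integral_sub h4 h6,
      integral_finsetSum _ fun θ _ => (frK hK θ).const_mul _]
    have h8 : ∑ θ ∈ a.support, ∫ y in Ioi (0 : ℝ), (a θ : ℂ) * (((Int.fract (θ * y) : ℝ) : ℂ) * K y) = 0 := by
      refine Finset.sum_eq_zero fun θ hθ => ?_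
      rw [integral_const_mul, ho θ hθ, mul_zero]
    rw [h8, sub_zero, setIntegral_indicator measurableSet_Ici]
    have h7 : Ioi (0 : ℝ) ∩ Ici 1 = Ici 1 :=
      inter_eq_right.2 fun y (hy : 1 ≤ y) => show 0 < y from lt_of_lt_of_le one_pos hy
    rw [h7, integral_Ici_eq_integral_Ioi]

/-- duality -/
theorem dual (h3 : S_intR) (a : ℝ →₀ ℝ) (ha : ∀ θ ∈ a.support, 0 < θ ∧ θ ≤ 1) {K : ℝ → ℂ}
    (hK : IntegrableOn K (Ioi 0)) (hK2 : IntegrableOn (fun y : ℝ => ‖K y‖ ^ 2 * y ^ 2) (Ioi 0))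
    (ho : ∀ θ ∈ a.support, ∫ y in Ioi (0 : ℝ), ((Int.fract (θ * y) : ℝ) : ℂ) * K y = 0) (t : ℝ) :
    2 * t * (∫ y in Ioi (1 : ℝ), K y).re ≤ JR a + t ^ 2 * ∫ y in Ioi (0 : ℝ), ‖K y‖ ^ 2 * y ^ 2 := by
  obtain ⟨i1, i2⟩ := JR_inv h3 a ha
  obtain ⟨p1, p2⟩ := pairK a hK ho
  have hre : (∫ y in Ioi (1 : ℝ), K y).re = ∫ y in Ioi (0 : ℝ), (((difR a (1 / y) : ℝ) : ℂ) * K y).re := by
    rw [← p2]
    exact (integral_re p1).symm
  have p1re : IntegrableOn (fun y : ℝ => (((difR a (1 / y) : ℝ) : ℂ) * K y).re) (Ioi 0) := p1.re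
  rw [hre, ← i2, ← integral_const_mul, ← integral_const_mul, ← integral_add i1 (hK2.const_mul _)]
  refine setIntegral_mono_on (p1re.const_mul _) (i1.add (hK2.const_mul _)) measurableSet_Ioi fun y hy => ?_
  have hy0 : (0 : ℝ) < y := hy
  rw [Complex.re_ofReal_mul]
  have h1 : (K y).re ^ 2 ≤ ‖K y‖ ^ 2 := by
    rw [← sq_abs]
    exact pow_le_pow_left₀ (abs_nonneg _) (Complex.abs_re_le_norm _) 2
  have h2 : difR a (1 / y) = difR a (1 / y) / y * y := by field_simp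
  set D := difR a (1 / y) / y with hD
  rw [h2]
  have h4 : 0 ≤ (D - t * (y * (K y).re)) ^ 2 := sq_nonneg _
  have h5 : (t * y) ^ 2 * (K y).re ^ 2 ≤ (t * y) ^ 2 * ‖K y‖ ^ 2 := mul_le_mul_of_nonneg_left h1 (sq_nonneg _)
  nlinarith

/-- **R5** -/
theorem lowR (h0 : S_leg) (h1 : S_TR) (h2 : S_TN) (h3 : S_intR) : S_lowR := by
  intro S hS η hη
  obtain ⟨M, hMd⟩ : ∃ M : ℝ, M = ∑ g ∈ S, (mz (cl g) : ℝ) ^ 2 / (1 / 4 + g ^ 2) := ⟨_, rfl⟩
  rw [← hMd]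
  have hM0 : 0 ≤ M := by
    rw [hMd]
    exact Finset.sum_nonneg fun g _ => by positivity
  have hp : ∀ g : ℝ, ∃ p : Polynomial ℝ, p.degree < mz (cl g) ∧
      p.eval 0 = (mz (cl g) : ℝ) ^ 2 ∧ ∫ u in (0 : ℝ)..1, p.eval u ^ 2 = (mz (cl g) : ℝ) ^ 2 := by
    intro g
    rcases Nat.eq_zero_or_pos (mz (cl g)) with h | h
    · refine ⟨0, ?_, by simp [h], by simp [h]⟩
      rw [h, Polynomial.degree_zero]
      exact WithBot.bot_lt_coe _
    · obtain ⟨p, hp1, hp2, hp3⟩ := h0 _ h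
      refine ⟨p, hp1, hp2, ?_⟩
      have h4 := hp3 p hp1
      rw [hp2] at h4
      rw [← h4]
      simp only [sq]
  choose p hpd hp0 hpi using hp
  have hTR : ∀ g : ℝ, ∃ C : ℝ, 0 < C ∧ (g ∈ S → ∀ L : ℝ, 1 ≤ L → ∃ K : ℝ → ℂ, Measurable K ∧ IntegrableOn K (Ioi 0) ∧
      (∀ θ : ℝ, Real.exp (-L) ≤ θ → θ ≤ 1 → ∫ y in Ioi (0 : ℝ), ((Int.fract (θ * y) : ℝ) : ℂ) * K y = 0) ∧
      ‖(∫ y in Ioi (1 : ℝ), K y) - (((p g).eval 0 : ℝ) : ℂ) / cl g‖ ≤ C / L ∧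
      IntegrableOn (fun y : ℝ => ‖K y - Km g (p g) L y‖ ^ 2 * y ^ 2) (Ioi 0) ∧
      ∫ y in Ioi (0 : ℝ), ‖K y - Km g (p g) L y‖ ^ 2 * y ^ 2 ≤ C) := by
    intro g
    by_cases hg : g ∈ S
    · obtain ⟨C, hC, hC'⟩ := h1 g (p g) (hS g hg) (hpd g)
      exact ⟨C, hC, fun _ => hC'⟩
    · exact ⟨1, one_pos, fun h => absurd h hg⟩
  choose C hC0 hC using hTR
  obtain ⟨w, hwd⟩ : ∃ w : ℝ → ℂ, w = fun g => 1 / (starRingEnd ℂ) (cl g) := ⟨_, rfl⟩
  have hcl : ∀ g : ℝ, Complex.normSq (cl g) = 1 / 4 + g ^ 2 := by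
    intro g
    unfold cl
    rw [Complex.normSq_apply]
    simp
    ring
  have hw1 : ∀ g : ℝ, w g * (((p g).eval 0 : ℝ) : ℂ) / cl g =
      (((mz (cl g) : ℝ) ^ 2 / (1 / 4 + g ^ 2) : ℝ) : ℂ) := by
    intro g
    have e1 : (starRingEnd ℂ) (cl g) * cl g = ((1 / 4 + g ^ 2 : ℝ) : ℂ) := by
      rw [mul_comm, Complex.mul_conj, hcl]
    rw [hwd, hp0, Complex.ofReal_div, ← e1]
    change 1 / (starRingEnd ℂ) (cl g) * _ / cl g = _
    rw [one_div_mul_eq_div, div_div]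
  have hw2 : ∀ g : ℝ, ‖w g‖ ^ 2 = 1 / (1 / 4 + g ^ 2) := by
    intro g
    rw [hwd]
    change ‖1 / (starRingEnd ℂ) (cl g)‖ ^ 2 = _
    rw [norm_div, norm_one, RCLike.norm_conj, div_pow, one_pow, Complex.sq_norm, hcl]
  obtain ⟨W, hWd⟩ : ∃ W : ℝ, W = ∑ g ∈ S, ‖w g‖ * C g := ⟨_, rfl⟩
  have hW0 : 0 ≤ W := by
    rw [hWd]
    exact Finset.sum_nonneg fun g _ => mul_nonneg (norm_nonneg _) (hC0 g).le
  obtain ⟨C1, hC1, hTN⟩ := h2 S p w
  obtain ⟨C2, hC2d⟩ : ∃ C2 : ℝ, C2 = S.card * ∑ g ∈ S, ‖w g‖ ^ 2 * C g := ⟨_, rfl⟩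
  have hC20 : 0 ≤ C2 := by
    rw [hC2d]
    exact mul_nonneg (Nat.cast_nonneg _) (Finset.sum_nonneg fun g _ => mul_nonneg (sq_nonneg _) (hC0 g).le)
  set ε : ℝ := η / (2 * (M + 1)) with hε
  have hε0 : 0 < ε := by positivity
  have hεM : ε * M ≤ η / 2 := by
    have : ε * M ≤ ε * (M + 1) := mul_le_mul_of_nonneg_left (by linarith) hε0.le
    refine this.trans (le_of_eq ?_)
    rw [hε]
    field_simp
  set X : ℝ := 2 * W + (1 + ε) * C1 + (1 + 1 / ε) * C2 with hX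
  have hX0 : 0 ≤ X := by positivity
  set L0 : ℝ := max 1 (2 * X / η) with hL0
  have hL01 : 1 ≤ L0 := le_max_left _ _
  refine ⟨Real.exp (-L0), Real.exp_pos _, ?_, ?_⟩
  · rw [Real.exp_lt_one_iff]
    linarith
  intro lam hlam hlam' a ha
  set L : ℝ := Real.log (1 / lam) with hL
  have hLL0 : L0 ≤ L := by
    rw [hL, one_div, Real.log_inv]
    have := Real.log_lt_log hlam hlam'
    rw [Real.log_exp] at this
    linarith
  have hL1 : 1 ≤ L := hL01.trans hLL0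
  have hLp : 0 < L := by linarith
  have hexp : Real.exp (-L) = lam := by
    rw [hL, one_div, Real.log_inv, neg_neg, Real.exp_log hlam]
  have ha' : ∀ θ ∈ a.support, 0 < θ ∧ θ ≤ 1 := fun θ hθ => ⟨lt_of_lt_of_le hlam (ha θ hθ).1, (ha θ hθ).2⟩
  have hK : ∀ g : ℝ, ∃ K : ℝ → ℂ, g ∈ S → Measurable K ∧ IntegrableOn K (Ioi 0) ∧
      (∀ θ : ℝ, Real.exp (-L) ≤ θ → θ ≤ 1 → ∫ y in Ioi (0 : ℝ), ((Int.fract (θ * y) : ℝ) : ℂ) * K y = 0) ∧
      ‖(∫ y in Ioi (1 : ℝ), K y) - (((p g).eval 0 : ℝ) : ℂ) / cl g‖ ≤ C g / L ∧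
      IntegrableOn (fun y : ℝ => ‖K y - Km g (p g) L y‖ ^ 2 * y ^ 2) (Ioi 0) ∧
      ∫ y in Ioi (0 : ℝ), ‖K y - Km g (p g) L y‖ ^ 2 * y ^ 2 ≤ C g := by
    intro g
    by_cases hg : g ∈ S
    · obtain ⟨K, h⟩ := hC g hg L hL1
      exact ⟨K, fun _ => h⟩
    · exact ⟨0, fun h => absurd h hg⟩
  choose K hKK using hK
  have hKmm : ∀ g : ℝ, Measurable (Km g (p g) L) := by
    intro g
    unfold Km
    refine Measurable.ite (measurableSet_Icc (a := (1 : ℝ)) (b := Real.exp L)) ?_ measurable_const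
    refine Measurable.mul (Complex.measurable_ofReal.pow_const _) ?_
    exact Complex.measurable_ofReal.comp ((p g).continuous.measurable.comp (Real.measurable_log.div_const _))
  set k : ℝ → ℂ := fun y => ∑ g ∈ S, w g * K g y with hk
  set km : ℝ → ℂ := fun y => ∑ g ∈ S, w g * Km g (p g) L y with hkm
  have hkmeas : Measurable k := Finset.measurable_fun_sum _ fun g hg => (hKK g hg).1.const_mul _
  have hkint : IntegrableOn k (Ioi 0) := integrable_finsetSum _ fun g hg => (hKK g hg).2.1.const_mul _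
  obtain ⟨n1, n2⟩ := hTN L hL1
  have hsum : ∑ g ∈ S, ‖w g‖ ^ 2 * (∫ u in (0 : ℝ)..1, (p g).eval u ^ 2) = M := by
    rw [hMd]
    refine Finset.sum_congr rfl fun g _ => ?_
    rw [hw2, hpi]
    ring
  rw [hsum] at n2
  -- the error part
  have e1 : ∀ y : ℝ, ‖k y - km y‖ ^ 2 * y ^ 2 ≤ S.card * ∑ g ∈ S, ‖w g‖ ^ 2 * (‖K g y - Km g (p g) L y‖ ^ 2 * y ^ 2) := by
    intro y
    have h4 : k y - km y = ∑ g ∈ S, w g * (K g y - Km g (p g) L y) := by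
      rw [hk, hkm]
      simp only
      rw [← Finset.sum_sub_distrib]
      exact Finset.sum_congr rfl fun g _ => by ring
    have h5 : ‖k y - km y‖ ≤ ∑ g ∈ S, ‖w g * (K g y - Km g (p g) L y)‖ := by
      rw [h4]
      exact norm_sum_le _ _
    have h6 : ‖k y - km y‖ ^ 2 ≤ S.card * ∑ g ∈ S, ‖w g * (K g y - Km g (p g) L y)‖ ^ 2 :=
      (pow_le_pow_left₀ (norm_nonneg _) h5 2).trans sq_sum_le_card_mul_sum_sq
    calc ‖k y - km y‖ ^ 2 * y ^ 2 ≤ (S.card * ∑ g ∈ S, ‖w g * (K g y - Km g (p g) L y)‖ ^ 2) * y ^ 2 :=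
          mul_le_mul_of_nonneg_right h6 (sq_nonneg _)
      _ = S.card * ∑ g ∈ S, ‖w g‖ ^ 2 * (‖K g y - Km g (p g) L y‖ ^ 2 * y ^ 2) := by
          rw [mul_assoc, Finset.sum_mul]
          congr 1
          refine Finset.sum_congr rfl fun g _ => ?_
          rw [norm_mul, mul_pow]
          ring
  have i3 : IntegrableOn (fun y : ℝ => (S.card : ℝ) * ∑ g ∈ S, ‖w g‖ ^ 2 * (‖K g y - Km g (p g) L y‖ ^ 2 * y ^ 2))
      (Ioi 0) := Integrable.const_mul (integrable_finsetSum _ fun g hg => (hKK g hg).2.2.2.2.1.const_mul _) _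
  have i3v : ∫ y in Ioi (0 : ℝ), (S.card : ℝ) * ∑ g ∈ S, ‖w g‖ ^ 2 * (‖K g y - Km g (p g) L y‖ ^ 2 * y ^ 2) ≤ C2 := by
    rw [integral_const_mul, integral_finsetSum _ fun g hg => (hKK g hg).2.2.2.2.1.const_mul _, hC2d]
    refine mul_le_mul_of_nonneg_left (Finset.sum_le_sum fun g hg => ?_) (Nat.cast_nonneg _)
    rw [integral_const_mul]
    exact mul_le_mul_of_nonneg_left (hKK g hg).2.2.2.2.2 (sq_nonneg _)
  -- the norm
  have e2 : ∀ y : ℝ, ‖k y‖ ^ 2 * y ^ 2 ≤ (1 + ε) * (‖km y‖ ^ 2 * y ^ 2) +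
      (1 + 1 / ε) * ((S.card : ℝ) * ∑ g ∈ S, ‖w g‖ ^ 2 * (‖K g y - Km g (p g) L y‖ ^ 2 * y ^ 2)) := by
    intro y
    have h4 : ‖k y‖ ≤ ‖km y‖ + ‖k y - km y‖ := by
      calc ‖k y‖ = ‖km y + (k y - km y)‖ := by congr 1; ring
        _ ≤ _ := norm_add_le _ _
    have h5 : ‖k y‖ ^ 2 ≤ (‖km y‖ + ‖k y - km y‖) ^ 2 := pow_le_pow_left₀ (norm_nonneg _) h4 2
    set A := ‖km y‖ with hA
    set B := ‖k y - km y‖ with hB
    have h6 : (A + B) ^ 2 ≤ (1 + ε) * A ^ 2 + (1 + 1 / ε) * B ^ 2 := by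
      have h7 : 0 ≤ (ε * A - B) ^ 2 / ε := by positivity
      have h8 : (ε * A - B) ^ 2 / ε = ε * A ^ 2 - 2 * A * B + 1 / ε * B ^ 2 := by
        field_simp
        ring
      rw [h8] at h7
      nlinarith
    have h9 : ‖k y‖ ^ 2 * y ^ 2 ≤ ((1 + ε) * A ^ 2 + (1 + 1 / ε) * B ^ 2) * y ^ 2 :=
      mul_le_mul_of_nonneg_right (h5.trans h6) (sq_nonneg _)
    have h10 : (1 + 1 / ε) * (B ^ 2 * y ^ 2) ≤
        (1 + 1 / ε) * ((S.card : ℝ) * ∑ g ∈ S, ‖w g‖ ^ 2 * (‖K g y - Km g (p g) L y‖ ^ 2 * y ^ 2)) :=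
      mul_le_mul_of_nonneg_left (e1 y) (by positivity)
    nlinarith
  have i4 : IntegrableOn (fun y : ℝ => (1 + ε) * (‖km y‖ ^ 2 * y ^ 2) +
      (1 + 1 / ε) * ((S.card : ℝ) * ∑ g ∈ S, ‖w g‖ ^ 2 * (‖K g y - Km g (p g) L y‖ ^ 2 * y ^ 2))) (Ioi 0) :=
    (n1.const_mul _).add (i3.const_mul _)
  have i5 : IntegrableOn (fun y : ℝ => ‖k y‖ ^ 2 * y ^ 2) (Ioi 0) := by
    refine Integrable.mono' i4 ?_ (Filter.Eventually.of_forall fun y => ?_)
    · exact ((hkmeas.norm.pow_const 2).mul (measurable_id.pow_const 2)).aestronglyMeasurable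
    · rw [Real.norm_of_nonneg (by positivity)]
      exact e2 y
  have hN : ∫ y in Ioi (0 : ℝ), ‖k y‖ ^ 2 * y ^ 2 ≤ (1 + ε) * (L * M + C1) + (1 + 1 / ε) * C2 := by
    refine (integral_mono i5 i4 e2).trans ?_
    rw [integral_add (n1.const_mul _) (i3.const_mul _), integral_const_mul, integral_const_mul]
    exact add_le_add (mul_le_mul_of_nonneg_left n2 (by positivity)) (mul_le_mul_of_nonneg_left i3v (by positivity))
  -- orthogonality
  have horth : ∀ θ ∈ a.support, ∫ y in Ioi (0 : ℝ), ((Int.fract (θ * y) : ℝ) : ℂ) * k y = 0 := by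
    intro θ hθ
    have h4 : (fun y : ℝ => ((Int.fract (θ * y) : ℝ) : ℂ) * k y) = fun y =>
        ∑ g ∈ S, w g * (((Int.fract (θ * y) : ℝ) : ℂ) * K g y) := by
      funext y
      rw [hk, Finset.mul_sum]
      exact Finset.sum_congr rfl fun g _ => by ring
    rw [h4, integral_finsetSum _ fun g hg => (frK (hKK g hg).2.1 θ).const_mul _]
    refine Finset.sum_eq_zero fun g hg => ?_
    rw [integral_const_mul, (hKK g hg).2.2.1 θ (by rw [hexp]; exact (ha θ hθ).1) (ha θ hθ).2, mul_zero]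
  -- the main term
  have hmain : M - W / L ≤ (∫ y in Ioi (1 : ℝ), k y).re := by
    have e4 : ∫ y in Ioi (1 : ℝ), k y = ∑ g ∈ S, w g * ∫ y in Ioi (1 : ℝ), K g y := by
      rw [hk, integral_finsetSum _ fun g hg =>
        ((hKK g hg).2.1.mono_set (Ioi_subset_Ioi zero_le_one)).const_mul _]
      exact Finset.sum_congr rfl fun g _ => integral_const_mul _ _
    have e5 : (M : ℂ) = ∑ g ∈ S, w g * ((((p g).eval 0 : ℝ) : ℂ) / cl g) := by
      rw [hMd, Complex.ofReal_sum]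
      refine Finset.sum_congr rfl fun g _ => ?_
      rw [← hw1, mul_div_assoc]
    have e6 : ‖(∫ y in Ioi (1 : ℝ), k y) - (M : ℂ)‖ ≤ W / L := by
      rw [e4, e5, ← Finset.sum_sub_distrib]
      refine (norm_sum_le _ _).trans ?_
      rw [hWd, Finset.sum_div]
      refine Finset.sum_le_sum fun g hg => ?_
      rw [← mul_sub, norm_mul, mul_div_assoc]
      exact mul_le_mul_of_nonneg_left (hKK g hg).2.2.2.1 (norm_nonneg _)
    have e7 := (Complex.abs_re_le_norm ((∫ y in Ioi (1 : ℝ), k y) - (M : ℂ))).trans e6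
    rw [Complex.sub_re, Complex.ofReal_re, abs_le] at e7
    linarith [e7.1]
  have hd := dual h3 a ha' hkint i5 horth (1 / L)
  have h4 : 2 * (1 / L) * (M - W / L) ≤ 2 * (1 / L) * (∫ y in Ioi (1 : ℝ), k y).re :=
    mul_le_mul_of_nonneg_left hmain (by positivity)
  have h5 : (1 / L) ^ 2 * (∫ y in Ioi (0 : ℝ), ‖k y‖ ^ 2 * y ^ 2) ≤
      (1 / L) ^ 2 * ((1 + ε) * (L * M + C1) + (1 + 1 / ε) * C2) := mul_le_mul_of_nonneg_left hN (by positivity)
  have h6 : 2 * (1 / L) * (M - W / L) ≤ JR a + (1 / L) ^ 2 * ((1 + ε) * (L * M + C1) + (1 + 1 / ε) * C2) := by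
    linarith
  have h7 : (2 * (1 / L) * (M - W / L)) * L ≤
      (JR a + (1 / L) ^ 2 * ((1 + ε) * (L * M + C1) + (1 + 1 / ε) * C2)) * L := mul_le_mul_of_nonneg_right h6 hLp.le
  have h8 : (2 * (1 / L) * (M - W / L)) * L = 2 * M - 2 * W / L := by field_simp
  have h9 : (JR a + (1 / L) ^ 2 * ((1 + ε) * (L * M + C1) + (1 + 1 / ε) * C2)) * L =
      JR a * L + (1 + ε) * M + ((1 + ε) * C1 + (1 + 1 / ε) * C2) / L := by
    field_simp
    ring
  rw [h8, h9] at h7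
  have h10 : X / L ≤ η / 2 := by
    rw [div_le_iff₀ hLp]
    have h11 : 2 * X / η ≤ L := (le_max_right _ _).trans hLL0
    rw [div_le_iff₀ hη] at h11
    linarith
  have h12 : X / L = 2 * W / L + ((1 + ε) * C1 + (1 + 1 / ε) * C2) / L := by
    rw [hX]
    ring
  linarith

end Pool.Agent.Q210.BD
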