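import Pool.Agent.Q286.BD.Spec

set_option autoImplicit false

/-!
# Project BD: the localising polynomials (job P8)
-/

namespace Pool.Agent.Q210.BD

open Complex MeasureTheory Filter Topology Set
open Pool.Agent.Q286.BD

/-- the integral to compare with -/
noncomputable def II (M τ : ℝ) : ℂ := ∫ v in (0 : ℝ)..M, cexp (-(τ * v * I))

/-- the summand as a function of a real variable -/
noncomputable def hf (τ y : ℝ) : ℂ := cexp (-(1 + τ * I) * (Real.log y : ℝ))

lemma hf_nat (τ : ℝ) (n : ℕ) (hn : 1 ≤ n) : (n : ℂ) ^ (-(1 + τ * I)) = hf τ n := by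
  have hn0 : (n : ℂ) ≠ 0 := by
    exact_mod_cast (by omega : n ≠ 0)
  rw [Complex.cpow_def_of_ne_zero hn0, hf, ← Complex.natCast_log]
  ring_nf

lemma hf_norm {τ y : ℝ} (hy : 0 < y) : ‖hf τ y‖ = 1 / y := by
  unfold hf
  rw [Complex.norm_exp]
  have : ((-(1 + (τ : ℂ) * I) * ((Real.log y : ℝ) : ℂ)).re) = -Real.log y := by
    simp
  rw [this, Real.exp_neg, Real.exp_log hy, one_div]

lemma hf_deriv {τ y : ℝ} (hy : 0 < y) : HasDerivAt (hf τ) (hf τ y * (-(1 + τ * I) * ((1 / y : ℝ) : ℂ))) y := by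
  unfold hf
  have h1 : HasDerivAt (fun y : ℝ => ((Real.log y : ℝ) : ℂ)) (((1 / y : ℝ)) : ℂ) y := by
    have := (Real.hasDerivAt_log hy.ne').ofReal_comp
    simpa using this
  exact (h1.const_mul (-(1 + τ * I))).cexp

lemma c_norm (τ : ℝ) : ‖(-(1 + (τ : ℂ) * I))‖ ≤ 1 + |τ| := by
  rw [norm_neg]
  refine (norm_add_le _ _).trans ?_
  simp

lemma hf_diff {τ : ℝ} {N y z : ℝ} (hN : 0 < N) (hy : N ≤ y) (hyz : y ≤ z) :
    ‖hf τ z - hf τ y‖ ≤ (1 + |τ|) / N ^ 2 * (z - y) := by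
  have h1 := norm_image_sub_le_of_norm_deriv_le_segment' (f := hf τ)
    (f' := fun u => hf τ u * (-(1 + τ * I) * ((1 / u : ℝ) : ℂ))) (C := (1 + |τ|) / N ^ 2) (a := y) (b := z) (by
      intro u hu
      exact (hf_deriv (by linarith [hu.1])).hasDerivWithinAt) (by
      intro u hu
      have hu0 : 0 < u := by linarith [hu.1]
      rw [norm_mul, norm_mul, hf_norm hu0, Complex.norm_real, Real.norm_of_nonneg (by positivity)]
      have h2 := c_norm τ
      have h3 : 1 / u ≤ 1 / N := one_div_le_one_div_of_le hN (by linarith [hu.1])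
      have h4 : 0 < 1 / u := by positivity
      calc 1 / u * (‖(-(1 + (τ : ℂ) * I))‖ * (1 / u)) ≤ 1 / N * ((1 + |τ|) * (1 / N)) := by gcongr
        _ = (1 + |τ|) / N ^ 2 := by field_simp)
  exact h1 z ⟨hyz, le_refl z⟩

lemma G_deriv {τ y : ℝ} (hy : 0 < y) : HasDerivAt (fun y : ℝ => II (Real.log y) τ) (hf τ y) y := by
  unfold II
  have hc : Continuous (fun v : ℝ => cexp (-(τ * v * I))) := by fun_prop
  have h1 : HasDerivAt (fun M : ℝ => ∫ v in (0 : ℝ)..M, cexp (-(τ * v * I))) (cexp (-(τ * (Real.log y : ℝ) * I))) (Real.log y) :=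
    intervalIntegral.integral_hasDerivAt_right (hc.intervalIntegrable _ _)
      hc.aestronglyMeasurable.stronglyMeasurableAtFilter hc.continuousAt
  have h2 := h1.scomp y (Real.hasDerivAt_log hy.ne')
  have h3 : (y⁻¹ • cexp (-(τ * (Real.log y : ℝ) * I)) : ℂ) = hf τ y := by
    unfold hf
    have h4 : (-(1 + (τ : ℂ) * I) * ((Real.log y : ℝ) : ℂ)) = ((-Real.log y : ℝ) : ℂ) + -(τ * (Real.log y : ℝ) * I) := by
      push_cast
      ring
    rw [h4, Complex.exp_add, ← Complex.ofReal_exp, Real.exp_neg, Real.exp_log hy]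
    rfl
  rw [h3] at h2
  exact h2

lemma step (τ : ℝ) (N : ℕ) (hN : 1 ≤ N) :
    ‖hf τ ((N + 1 : ℕ) : ℝ) - (II (Real.log ((N + 1 : ℕ) : ℝ)) τ - II (Real.log N) τ)‖ ≤ (1 + |τ|) / (N : ℝ) ^ 2 := by
  have hN0 : (0 : ℝ) < N := by exact_mod_cast hN
  have h1 := norm_image_sub_le_of_norm_deriv_le_segment'
    (f := fun y : ℝ => II (Real.log y) τ - y • hf τ ((N + 1 : ℕ) : ℝ))
    (f' := fun u => hf τ u - (1 : ℝ) • hf τ ((N + 1 : ℕ) : ℝ)) (C := (1 + |τ|) / (N : ℝ) ^ 2) (a := N) (b := N + 1) (by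
      intro u hu
      have hu0 : 0 < u := by linarith [hu.1]
      exact ((G_deriv hu0).sub ((hasDerivAt_id u).smul_const _)).hasDerivWithinAt) (by
      intro u hu
      rw [one_smul, ← norm_neg, neg_sub]
      have h2 := hf_diff (τ := τ) hN0 hu.1 (z := ((N + 1 : ℕ) : ℝ)) (by push_cast; exact hu.2.le)
      refine h2.trans ?_
      have h3 : (((N + 1 : ℕ) : ℝ) - u) ≤ 1 := by push_cast; linarith [hu.1]
      have h4 : 0 ≤ (1 + |τ|) / (N : ℝ) ^ 2 := by positivity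
      calc (1 + |τ|) / (N : ℝ) ^ 2 * (((N + 1 : ℕ) : ℝ) - u) ≤ (1 + |τ|) / (N : ℝ) ^ 2 * 1 :=
            mul_le_mul_of_nonneg_left h3 h4
        _ = _ := mul_one _)
  have h2 := h1 (N + 1) ⟨by linarith, le_refl _⟩
  have e : (II (Real.log ((N : ℝ) + 1)) τ - ((N : ℝ) + 1) • hf τ ((N + 1 : ℕ) : ℝ)) -
      (II (Real.log N) τ - (N : ℝ) • hf τ ((N + 1 : ℕ) : ℝ)) =
      -(hf τ ((N + 1 : ℕ) : ℝ) - (II (Real.log ((N + 1 : ℕ) : ℝ)) τ - II (Real.log N) τ)) := by
    push_cast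
    rw [add_smul, one_smul]
    ring
  rw [e, norm_neg] at h2
  refine h2.trans (le_of_eq ?_)
  ring

/-- comparison of the sum with the integral -/
lemma key (τ : ℝ) (N : ℕ) (hN : 1 ≤ N) :
    ‖∑ n ∈ Finset.Icc 1 N, (n : ℂ) ^ (-(1 + τ * I)) - II (Real.log N) τ‖ ≤ 1 + 2 * (1 + |τ|) * (1 - 1 / N) := by
  induction N, hN using Nat.le_induction with
  | base =>
    rw [Finset.Icc_self, Finset.sum_singleton, hf_nat τ 1 le_rfl]
    have : II (Real.log ((1 : ℕ) : ℝ)) τ = 0 := by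
      unfold II
      simp
    rw [this, sub_zero, hf_norm (by norm_num)]
    simp
  | succ N hN ih =>
    have hN0 : (0 : ℝ) < N := by exact_mod_cast hN
    rw [Finset.sum_Icc_succ_top (by omega), hf_nat τ (N + 1) (by omega)]
    have e : ∑ n ∈ Finset.Icc 1 N, (n : ℂ) ^ (-(1 + (τ : ℂ) * I)) + hf τ ((N + 1 : ℕ) : ℝ) -
        II (Real.log ((N + 1 : ℕ) : ℝ)) τ =
        (∑ n ∈ Finset.Icc 1 N, (n : ℂ) ^ (-(1 + (τ : ℂ) * I)) - II (Real.log N) τ) +
        (hf τ ((N + 1 : ℕ) : ℝ) - (II (Real.log ((N + 1 : ℕ) : ℝ)) τ - II (Real.log N) τ)) := by ring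
    rw [e]
    refine (norm_add_le _ _).trans ((add_le_add ih (step τ N hN)).trans ?_)
    have h1 : (1 : ℝ) / (N : ℝ) ^ 2 ≤ 2 * (1 / N - 1 / ((N + 1 : ℕ) : ℝ)) := by
      push_cast
      have h2 : (1 : ℝ) ≤ N := by exact_mod_cast hN
      rw [div_sub_div _ _ (by positivity) (by positivity), mul_div_assoc', div_le_div_iff₀ (by positivity) (by positivity)]
      nlinarith
    have h3 : 0 ≤ 1 + |τ| := by positivity
    have h4 : (1 + |τ|) / (N : ℝ) ^ 2 ≤ (1 + |τ|) * (2 * (1 / N - 1 / ((N + 1 : ℕ) : ℝ))) := by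
      rw [div_eq_mul_one_div]
      exact mul_le_mul_of_nonneg_left h1 h3
    linarith

lemma key' (τ : ℝ) (N : ℕ) (hN : 1 ≤ N) :
    ‖∑ n ∈ Finset.Icc 1 N, (n : ℂ) ^ (-(1 + τ * I)) - II (Real.log N) τ‖ ≤ 3 + 2 * |τ| := by
  refine (key τ N hN).trans ?_
  have hN0 : (0 : ℝ) < N := by exact_mod_cast hN
  have h1 : (0 : ℝ) ≤ 1 / N := by positivity
  have h2 := abs_nonneg τ
  nlinarith [mul_nonneg h1 h2]

lemma floor_pos' {M : ℝ} (hM : 0 ≤ M) : 1 ≤ ⌊Real.exp M⌋₊ := by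
  rw [Nat.one_le_floor_iff]
  exact Real.one_le_exp hM

lemma log_floor_le {M : ℝ} (hM : 0 ≤ M) : Real.log ⌊Real.exp M⌋₊ ≤ M := by
  have h1 : (0 : ℝ) < ⌊Real.exp M⌋₊ := by exact_mod_cast floor_pos' hM
  rw [Real.log_le_iff_le_exp h1]
  exact Nat.floor_le (Real.exp_pos M).le

lemma le_log_floor {M : ℝ} (hM : 0 ≤ M) : M - Real.log 2 ≤ Real.log ⌊Real.exp M⌋₊ := by
  have h1 : (1 : ℝ) ≤ ⌊Real.exp M⌋₊ := by exact_mod_cast floor_pos' hM
  have h2 : Real.exp M < ⌊Real.exp M⌋₊ + 1 := Nat.lt_floor_add_one _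
  have h3 : Real.exp M / 2 ≤ ⌊Real.exp M⌋₊ := by linarith
  have h4 := Real.log_le_log (by positivity) h3
  rw [Real.log_div (Real.exp_pos M).ne' (by norm_num), Real.log_exp] at h4
  exact h4

lemma loc1 (g L2 t : ℝ) (hL : 1 ≤ L2) : ‖Pl g L2 t‖ ≤ 2 := by
  unfold Pl
  have hL0 : 0 < L2 := by linarith
  rw [norm_mul, norm_div, norm_one, Complex.norm_real, Real.norm_of_nonneg hL0.le]
  have h1 : ‖∑ n ∈ Finset.Icc 1 ⌊Real.exp L2⌋₊, (n : ℂ) ^ (-(1 + ((t : ℂ) - g) * I))‖ ≤ 1 + L2 := by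
    calc _ ≤ ∑ n ∈ Finset.Icc 1 ⌊Real.exp L2⌋₊, ‖(n : ℂ) ^ (-(1 + ((t : ℂ) - g) * I))‖ := norm_sum_le _ _
      _ = ∑ n ∈ Finset.Icc 1 ⌊Real.exp L2⌋₊, ((n : ℝ))⁻¹ := by
          refine Finset.sum_congr rfl fun n hn => ?_
          rw [Finset.mem_Icc] at hn
          have h2 := hf_nat (t - g) n hn.1
          push_cast at h2
          rw [h2, hf_norm (by exact_mod_cast hn.1), one_div]
      _ = ((harmonic ⌊Real.exp L2⌋₊ : ℚ) : ℝ) := by
          rw [harmonic_eq_sum_Icc]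
          push_cast
          rfl
      _ ≤ 1 + Real.log ⌊Real.exp L2⌋₊ := harmonic_le_one_add_log _
      _ ≤ 1 + L2 := by linarith [log_floor_le hL0.le]
  calc 1 / L2 * _ ≤ 1 / L2 * (1 + L2) := mul_le_mul_of_nonneg_left h1 (by positivity)
    _ = 1 / L2 + 1 := by field_simp
    _ ≤ 2 := by
      have : 1 / L2 ≤ 1 := by rw [div_le_one hL0]; exact hL
      linarith

/-- the error of the comparison -/
lemma Pl_sub (g M t : ℝ) (hM : 0 < M) :
    ‖Pl g M t - 1 / (M : ℂ) * II (Real.log ⌊Real.exp M⌋₊) (t - g)‖ ≤ (3 + 2 * |t - g|) / M := by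
  unfold Pl
  rw [← mul_sub, norm_mul, norm_div, norm_one, Complex.norm_real, Real.norm_of_nonneg hM.le]
  have h := key' (t - g) ⌊Real.exp M⌋₊ (floor_pos' hM.le)
  push_cast at h
  calc 1 / M * _ ≤ 1 / M * (3 + 2 * |t - g|) := mul_le_mul_of_nonneg_left h (by positivity)
    _ = _ := by ring

lemma tend_log (e : ℝ) (he : 0 < e) :
    Tendsto (fun L : ℝ => Real.log ⌊Real.exp (e * L)⌋₊ / (e * L)) atTop (𝓝 1) := by
  have h1 : Tendsto (fun L : ℝ => 1 - Real.log 2 / (e * L)) atTop (𝓝 1) := by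
    have : Tendsto (fun L : ℝ => Real.log 2 / (e * L)) atTop (𝓝 0) :=
      tendsto_const_nhds.div_atTop (tendsto_id.const_mul_atTop he)
    simpa using tendsto_const_nhds.sub this
  refine tendsto_of_tendsto_of_tendsto_of_le_of_le' h1 tendsto_const_nhds ?_ ?_
  · filter_upwards [eventually_gt_atTop 0] with L hL
    have hp : 0 < e * L := by positivity
    have := le_log_floor hp.le
    rw [le_div_iff₀ hp, sub_mul, one_mul, div_mul_cancel₀ _ hp.ne']
    exact this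
  · filter_upwards [eventually_gt_atTop 0] with L hL
    have hp : 0 < e * L := by positivity
    rw [div_le_one hp]
    exact log_floor_le hp.le

lemma tend_err (g e : ℝ) (he : 0 < e) (f : ℝ → ℝ) (B : ℝ) (hf : ∀ᶠ L in atTop, |f L - g| ≤ B) :
    Tendsto (fun L : ℝ => Pl g (e * L) (f L) - 1 / ((e * L : ℝ) : ℂ) * II (Real.log ⌊Real.exp (e * L)⌋₊) (f L - g))
      atTop (𝓝 0) := by
  have h1 : Tendsto (fun L : ℝ => (3 + 2 * B) / (e * L)) atTop (𝓝 0) :=
    tendsto_const_nhds.div_atTop (tendsto_id.const_mul_atTop he)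
  refine squeeze_zero_norm' ?_ h1
  filter_upwards [eventually_gt_atTop 0, hf] with L hL hB
  have hp : 0 < e * L := by positivity
  refine (Pl_sub g (e * L) (f L) hp).trans ?_
  gcongr

lemma loc2 (g e x : ℝ) (he : 0 < e) : Tendsto (fun L : ℝ => Pl g (e * L) (g + x / L)) atTop
    (𝓝 (∫ v in (0 : ℝ)..1, cexp (-(e * x * v * I)))) := by
  have hx : Tendsto (fun L : ℝ => x / L) atTop (𝓝 0) := tendsto_const_nhds.div_atTop tendsto_id
  have h1 := tend_err g e he (fun L => g + x / L) 1 (by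
    have := hx.eventually (Metric.ball_mem_nhds (0 : ℝ) one_pos)
    filter_upwards [this] with L hL
    rw [dist_zero_right, Real.norm_eq_abs] at hL
    rw [add_sub_cancel_left]
    exact hL.le)
  have hc : Continuous (fun v : ℝ => cexp (-(e * x * v * I))) := by fun_prop
  have h2 : Tendsto (fun L : ℝ => ∫ v in (0 : ℝ)..(Real.log ⌊Real.exp (e * L)⌋₊ / (e * L)), cexp (-(e * x * v * I))) atTop
      (𝓝 (∫ v in (0 : ℝ)..1, cexp (-(e * x * v * I)))) := by
    have h3 : Continuous (fun b : ℝ => ∫ v in (0 : ℝ)..b, cexp (-(e * x * v * I))) :=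
      intervalIntegral.continuous_primitive (fun a b => hc.intervalIntegrable a b) 0
    exact (h3.tendsto 1).comp (tend_log e he)
  have h4 := h1.add h2
  rw [zero_add] at h4
  refine h4.congr' ?_
  filter_upwards [eventually_gt_atTop 0] with L hL
  have hp : 0 < e * L := by positivity
  have h5 : 1 / ((e * L : ℝ) : ℂ) * II (Real.log ⌊Real.exp (e * L)⌋₊) (g + x / L - g) =
      ∫ v in (0 : ℝ)..(Real.log ⌊Real.exp (e * L)⌋₊ / (e * L)), cexp (-(e * x * v * I)) := by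
    unfold II
    have h6 := intervalIntegral.smul_integral_comp_mul_left
      (f := fun v : ℝ => cexp (-(((g + x / L - g : ℝ) : ℂ) * v * I))) (a := 0)
      (b := Real.log ⌊Real.exp (e * L)⌋₊ / (e * L)) (e * L)
    rw [mul_zero, mul_div_cancel₀ _ hp.ne'] at h6
    rw [← h6, Complex.real_smul, ← mul_assoc, one_div, inv_mul_cancel₀ (by exact_mod_cast hp.ne'), one_mul]
    refine intervalIntegral.integral_congr fun v _ => ?_
    congr 1
    push_cast
    have hL' : (L : ℂ) ≠ 0 := by exact_mod_cast hL.ne'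
    field_simp
    ring
  rw [h5]
  ring

lemma II_bound {M τ : ℝ} (hτ : τ ≠ 0) : ‖II M τ‖ ≤ 2 / |τ| := by
  unfold II
  have hc : (-(τ * I) : ℂ) ≠ 0 := by
    rw [neg_ne_zero]
    exact mul_ne_zero (by exact_mod_cast hτ) I_ne_zero
  have h1 : ∫ v in (0 : ℝ)..M, cexp (-(τ * v * I)) = ∫ v in (0 : ℝ)..M, cexp (-(τ * I) * v) := by
    refine intervalIntegral.integral_congr fun v _ => ?_
    congr 1
    ring
  rw [h1, integral_exp_mul_complex hc, norm_div]
  have h2 : ‖(-(τ * I) : ℂ)‖ = |τ| := by simp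
  rw [h2]
  have h3 : ∀ v : ℝ, ‖cexp (-(τ * I) * v)‖ = 1 := by
    intro v
    rw [Complex.norm_exp]
    simp
  have h4 : ‖cexp (-(τ * I) * M) - cexp (-(τ * I) * ((0 : ℝ) : ℂ))‖ ≤ 2 := by
    refine (norm_sub_le _ _).trans ?_
    rw [h3, h3]
    norm_num
  exact div_le_div_of_nonneg_right h4 (abs_nonneg _)

lemma loc3 (g g' e x : ℝ) (he : 0 < e) (hg : g' ≠ g) :
    Tendsto (fun L : ℝ => Pl g (e * L) (g' + x / L)) atTop (𝓝 0) := by
  have hx : Tendsto (fun L : ℝ => x / L) atTop (𝓝 0) := tendsto_const_nhds.div_atTop tendsto_id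
  have hd : 0 < |g' - g| := abs_pos.2 (sub_ne_zero.2 hg)
  have h1 := tend_err g e he (fun L => g' + x / L) (|g' - g| + 1) (by
    have := hx.eventually (Metric.ball_mem_nhds (0 : ℝ) one_pos)
    filter_upwards [this] with L hL
    rw [dist_zero_right, Real.norm_eq_abs] at hL
    have e1 : g' + x / L - g = (g' - g) + x / L := by ring
    rw [e1]
    exact (abs_add_le _ _).trans (by linarith))
  have h2 : Tendsto (fun L : ℝ => 1 / ((e * L : ℝ) : ℂ) * II (Real.log ⌊Real.exp (e * L)⌋₊) (g' + x / L - g))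
      atTop (𝓝 0) := by
    have h3 : Tendsto (fun L : ℝ => (4 / |g' - g|) / (e * L)) atTop (𝓝 0) :=
      tendsto_const_nhds.div_atTop (tendsto_id.const_mul_atTop he)
    refine squeeze_zero_norm' ?_ h3
    have := hx.eventually (Metric.ball_mem_nhds (0 : ℝ) (half_pos hd))
    filter_upwards [eventually_gt_atTop 0, this] with L hL hL2
    rw [dist_zero_right, Real.norm_eq_abs] at hL2
    have hp : 0 < e * L := by positivity
    have h5 : |g' - g| / 2 ≤ |g' + x / L - g| := by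
      have e1 : g' - g = (g' + x / L - g) - x / L := by ring
      have h6 : |g' - g| ≤ |g' + x / L - g| + |x / L| := by
        calc |g' - g| = |(g' + x / L - g) - x / L| := by rw [← e1]
          _ ≤ _ := abs_sub _ _
      linarith
    have h7 : g' + x / L - g ≠ 0 := by
      intro h8
      rw [h8, abs_zero] at h5
      linarith
    rw [norm_mul, norm_div, norm_one, Complex.norm_real, Real.norm_of_nonneg hp.le]
    calc 1 / (e * L) * ‖II (Real.log ⌊Real.exp (e * L)⌋₊) (g' + x / L - g)‖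
        ≤ 1 / (e * L) * (2 / |g' + x / L - g|) := mul_le_mul_of_nonneg_left (II_bound h7) (by positivity)
      _ ≤ 1 / (e * L) * (2 / (|g' - g| / 2)) := by gcongr
      _ = (4 / |g' - g|) / (e * L) := by field_simp; ring
  have h4 := h1.add h2
  rw [add_zero] at h4
  refine h4.congr fun L => ?_
  ring

/-- **P8** -/
theorem loc : S_loc :=
  ⟨fun g L2 t h => loc1 g L2 t h, fun g e x h => loc2 g e x h, fun g g' e x h1 h2 => loc3 g g' e x h1 h2⟩

end Pool.Agent.Q210.BD
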